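import Pool.Agent.Helper50.SR.Ma2

/-!
# Project OB (MP_0f6f3f_an), layer G2, block MR: Mautner property of one root vector

PROOF. As in the proof of `maut_gen` (`Helper50/SR/Ma2.lean`, `hplus`): for a suitable `r > 0` the matrix `X = r TT_to b x` satisfies `T := X Xᵀ - Xᵀ X`, `[T, X] = 2 X`, and `T = TT_to b H`, `H ∈ A`, `H ≠ 0`, is a positive multiple of `cm φ`. `ξ` is fixed by the `exp(t X)`, so by the `exp(t Xᵀ)` (`maut_sl2`). The stabiliser of `ξ` is a closed subgroup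
(`isClosed_stG`), its Lie algebra is closed under brackets, so `ξ` is fixed by `exp(t T)` for all `t`. If `Y ∈ lie G`, `[T, Y] = c Y`, `c < 0`, then `exp(m T) exp(τ Y) exp(-m T) = exp(e^(m c) τ Y) → 1`, so `ξ` is fixed by `exp(τ Y)` (`mautner`, `Helper96/FR/Maut.lean`; compare the end of `maut_sl2` and `ctr_root`, `Helper43/TA/SMaut.lean`). Now `maut_gen` with `H`.
-/

set_option autoImplicit false

open MeasureTheory Filter Topology Matrix

namespace Pool.Agent.Helper90.OB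

open Pool.Agent.Helper96.SA Pool.Agent.Helper96.FR Pool.Agent.Helper43.TA Pool.Agent.Helper43.TZ Pool.Agent.Helper96.TO

variable {L : Type} [LieRing L] [LieAlgebra ℝ L] {N : ℕ} {θ : L ≃ₗ⁅ℝ⁆ L} {b : Module.Basis (Fin N) ℝ L}
  {G : Subgroup (GL (Fin N) ℝ)} {A : Submodule ℝ L}

/-- The stabiliser of a vector, as a subgroup of `GL`. -/
private def stG90 (G : Subgroup (GL (Fin N) ℝ)) {K : Type} [NormedAddCommGroup K] [InnerProductSpace ℂ K] (σ : G →* (K ≃ₗᵢ[ℂ] K)) (ξ : K) :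
    Subgroup (GL (Fin N) ℝ) := (fixG σ ξ).map G.subtype

private theorem mem_stG90 {K : Type} [NormedAddCommGroup K] [InnerProductSpace ℂ K] {σ : G →* (K ≃ₗᵢ[ℂ] K)} {ξ : K} {g : GL (Fin N) ℝ} :
    g ∈ stG90 G σ ξ ↔ ∃ hg : g ∈ G, σ ⟨g, hg⟩ ξ = ξ := by
  constructor
  · rintro ⟨g, hg, rfl⟩
    exact ⟨g.2, hg⟩
  · rintro ⟨hg, h⟩
    exact ⟨⟨g, hg⟩, h, rfl⟩

private theorem isClosed_stG90 (hG : IsClosed (G : Set (GL (Fin N) ℝ))) {K : Type} [NormedAddCommGroup K] [InnerProductSpace ℂ K]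
    {σ : G →* (K ≃ₗᵢ[ℂ] K)} {ξ : K} (hξ : ξ ∈ contVec σ) : IsClosed (stG90 G σ ξ : Set (GL (Fin N) ℝ)) := by
  have h1 : Continuous fun g => σ g ξ := by
    rw [continuous_iff_continuousAt]
    intro g
    have h2 : Tendsto (fun g' => g⁻¹ * g') (𝓝 g) (𝓝 (1 : G)) := by
      have h3 : Tendsto (fun g' => g⁻¹ * g') (𝓝 g) (𝓝 (g⁻¹ * g)) := (continuous_const_mul g⁻¹).tendsto g
      rwa [inv_mul_cancel] at h3
    have h4 := ((σ g).continuous.tendsto _).comp ((mem_contVec.1 hξ).comp h2)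
    refine h4.congr fun g' => ?_
    show (σ g * σ (g⁻¹ * g')) ξ = σ g' ξ
    rw [← map_mul, mul_inv_cancel_left]
  have h2 : IsClosed (fixG σ ξ : Set G) := isClosed_eq h1 continuous_const
  have h3 : (stG90 G σ ξ : Set (GL (Fin N) ℝ)) = Subtype.val '' (fixG σ ξ : Set G) := rfl
  rw [h3]
  exact hG.isClosedEmbedding_subtypeVal.isClosedMap _ h2

/-- Conjugation of a root vector. -/
theorem conj_root {T X : Mat N} {c : ℝ} (h : T * X - X * T = c • X) (t : ℝ) :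
    ex (t • T) * ex X * (ex (t • T))⁻¹ = ex (Real.exp (c * t) • X) := by
  rw [← ex_conj, ← ex_neg, ex_coe, ex_coe, ← neg_smul]
  have h1 : NormedSpace.exp (t • T) * X * NormedSpace.exp ((-t) • T) = Real.exp (c * t) • X := by
    open scoped Matrix.Norms.Operator in
    exact Pool.Agent.Helper9.Mau.cc_eig (A := Mat N) h t
  rw [h1]

theorem maut_root [LieAlgebra.IsSimple ℝ L] (h : CartanBasis θ b) (hG : IsAdj b G)
    (hc : (G : Set (GL (Fin N) ℝ)) ⊆ closure (Subgroup.closure (Set.range fun x : L => ex (LinearMap.toMatrix b b (LieAlgebra.ad ℝ L x))) : Set (GL (Fin N) ℝ)))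
    (hA : MaxFlat θ A) {φ : Module.Dual ℝ A} (hφ : φ ≠ 0) {x : L} (hx0 : x ≠ 0) (hx : x ∈ rootSp A φ)
    {K : Type} [NormedAddCommGroup K] [InnerProductSpace ℂ K] (σ : G →* (K ≃ₗᵢ[ℂ] K)) (ξ : K) (hξ : ξ ∈ contVec σ)
    (h1 : ∀ (τ : ℝ) (g : G), (g : GL (Fin N) ℝ) = ex (τ • TT_to b x) → σ g ξ = ξ) (g : G) : σ g ξ = ξ := by
  have hSA := selfAdj_of_aut h hG
  have hV := isFlat_map h hG hA
  have hlie : lie G = lie (autG b) := lie_eq' hG.aut (Pool.Agent.Helper96.SA.lie_sub h hG)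
  have hT : ∀ x : L, TT_to b x ∈ lie G := fun x => by
    rw [hlie]
    exact TT_mem_to b x
  obtain ⟨cm, -, hcm, htr, -, hwt⟩ := Pool.Agent.Helper77.LA.exists_cm h hG hA
  have hcl := isClosed_stG90 hG.closed hξ
  obtain ⟨F, hF⟩ := lie_submodule hcl
  have hFm : ∀ X, X ∈ F ↔ ∀ τ : ℝ, ∃ hg : ex (τ • X) ∈ G, σ ⟨ex (τ • X), hg⟩ ξ = ξ := by
    intro X
    have h3 : X ∈ F ↔ X ∈ lie (stG90 G σ ξ) := by
      rw [← hF]
      rfl
    rw [h3, mem_lie]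
    exact forall_congr' fun τ => mem_stG90
  have hFb : ∀ X ∈ F, ∀ Y ∈ F, X * Y - Y * X ∈ F := by
    intro X hX Y hY
    have hX' : X ∈ (F : Set (Mat N)) := hX
    have hY' : Y ∈ (F : Set (Mat N)) := hY
    rw [hF] at hX' hY'
    have h3 := lie_bracket hcl hX' hY'
    rw [← hF] at h3
    exact h3
  have hFg : ∀ (X : Mat N) (hX : X ∈ lie G), (∀ τ : ℝ, σ ⟨ex (τ • X), mem_lie.1 hX τ⟩ ξ = ξ) → X ∈ F := by
    intro X hX h3
    rw [hFm]
    exact fun τ => ⟨_, h3 τ⟩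
  obtain ⟨X, hXd⟩ : ∃ X, X = TT_to b x := ⟨_, rfl⟩
  rw [← hXd] at h1
  have hX0 : X ≠ 0 := fun h3 => hx0 (TT_inj_to h (by rw [← hXd, h3, map_zero]))
  have hXw : Wt G (A.map (TT_to b)) (cm φ) X := hXd ▸ (hwt _ x).1 hx
  have hB0 : cm φ ≠ 0 := by
    intro h3
    apply hφ
    refine LinearMap.ext fun H => ?_
    have h4 := htr φ H
    rw [h3, Matrix.zero_mul, Matrix.trace_zero] at h4
    rw [LinearMap.zero_apply]
    exact h4.symm
  have ht : ∀ X ∈ lie G, Xᵀ ∈ lie G := fun X hX => lie_transpose hSA hX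
  have hco := coroot hSA.closed ht hV (max_map h hG hA) (hcm _) hXw
  obtain ⟨t1, ht1⟩ : ∃ t1, t1 = (X * Xᵀ).trace := ⟨_, rfl⟩
  obtain ⟨B, hB⟩ : ∃ B, B = cm φ := ⟨_, rfl⟩
  obtain ⟨t2, ht2⟩ : ∃ t2, t2 = (B * B).trace := ⟨_, rfl⟩
  rw [← hB] at hXw hco hB0
  rw [← ht1] at hco
  have hBV : B ∈ A.map (TT_to b) := hB ▸ hcm _
  have p1 : 0 < t1 := ht1 ▸ trace_mul_transpose_pos hX0
  have p2 : 0 < t2 := ht2 ▸ trace_self_pos (hV.symm _ hBV) hB0
  obtain ⟨c, hcd⟩ : ∃ c : ℝ, c = Real.sqrt (2 / (t2 * t1)) := ⟨_, rfl⟩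
  have hc2 : c * c = 2 / (t2 * t1) := by
    rw [hcd]
    exact Real.mul_self_sqrt (by positivity)
  have hc0 : c ≠ 0 := by
    rw [hcd]
    exact (Real.sqrt_pos.2 (by positivity)).ne'
  have hYl : c • X ∈ lie G := (hXw.smul hSA.closed c).1
  have hYtl : (c • X)ᵀ ∈ lie G := ht _ hYl
  have hTd : (c • X) * (c • X)ᵀ - (c • X)ᵀ * (c • X) = (c * c * t1) • B := by
    rw [Matrix.transpose_smul, Matrix.smul_mul, Matrix.mul_smul, Matrix.smul_mul, Matrix.mul_smul, smul_smul, smul_smul,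
      ← smul_sub, hco, smul_smul]
  have hTl : (c * c * t1) • B ∈ lie G := by
    rw [← hTd]
    exact lie_bracket hSA.closed hYl hYtl
  have hTY : ((c * c * t1) • B) * (c • X) - (c • X) * ((c * c * t1) • B) = (2 : ℝ) • (c • X) := by
    have h3 := hXw.2 B hBV
    rw [← ht2] at h3
    rw [Matrix.smul_mul, Matrix.mul_smul, Matrix.smul_mul, Matrix.mul_smul, smul_smul, smul_smul, mul_comm c (c * c * t1), ← smul_sub, h3, smul_smul, smul_smul]
    congr 1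
    have h4 : c * c * (t2 * t1) = 2 := by
      rw [hc2]
      exact div_mul_cancel₀ _ (by positivity)
    calc c * c * t1 * c * t2 = c * c * (t2 * t1) * c := by ring
      _ = 2 * c := by rw [h4]
  have h5 : ∀ τ : ℝ, σ ⟨ex (τ • (c • X)), mem_lie.1 hYl τ⟩ ξ = ξ := by
    intro τ
    refine h1 (τ * c) _ ?_
    rw [mul_smul]
  have h6 := maut_sl2 hTd.symm hTY hYl hYtl hTl σ hξ h5
  have hYF : c • X ∈ F := hFg _ hYl h5
  have hYtF : (c • X)ᵀ ∈ F := hFg _ hYtl h6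
  have hTF : (c * c * t1) • B ∈ F := by
    rw [← hTd]
    exact hFb _ hYF _ hYtF
  have hk0 : c * c * t1 ≠ 0 := mul_ne_zero (mul_ne_zero hc0 hc0) p1.ne'
  have hBF : B ∈ F := by
    have h8 := F.smul_mem (c * c * t1)⁻¹ hTF
    rwa [smul_smul, inv_mul_cancel₀ hk0, one_smul] at h8
  obtain ⟨H, hHA, hHB⟩ := hBV
  have hH0 : (⟨H, hHA⟩ : A) ≠ 0 := by
    intro h3
    apply hB0
    have h4 : H = 0 := congrArg Subtype.val h3
    rw [← hHB, h4, map_zero]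
  refine Pool.Agent.Helper50.SR.maut_gen h hG hc hA hH0 σ ξ hξ (fun Y hY c' hc' hcom τ => ?_) g
  change TT_to b H * Y - Y * TT_to b H = c' • Y at hcom
  rw [hHB] at hcom
  rw [hFm] at hBF
  obtain ⟨hg1, hg2⟩ := hBF (-1)
  refine mautner hξ (a := (⟨ex ((-1 : ℝ) • B), hg1⟩ : G)) ?_ hg2
  have h7 : ∀ m : ℕ, ((⟨ex ((-1 : ℝ) • B), hg1⟩ : G) ^ m)⁻¹ * ⟨ex (τ • Y), mem_lie.1 hY τ⟩ *
      (⟨ex ((-1 : ℝ) • B), hg1⟩ : G) ^ m = ⟨ex ((Real.exp (c' * m) * τ) • Y), mem_lie.1 hY _⟩ := by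
    intro m
    refine Subtype.ext ?_
    rw [Subgroup.coe_mul, Subgroup.coe_mul, Subgroup.coe_inv, Subgroup.coe_pow]
    change (ex ((-1 : ℝ) • B) ^ m)⁻¹ * ex (τ • Y) * ex ((-1 : ℝ) • B) ^ m = ex ((Real.exp (c' * m) * τ) • Y)
    have e1 : ex ((-1 : ℝ) • B) ^ m = (ex ((m : ℝ) • B))⁻¹ := by
      rw [← ex_nsmul, ← ex_neg, smul_smul, mul_neg_one, neg_smul]
    rw [e1, inv_inv, conj_root (X := τ • Y) (c := c') (by rw [Matrix.mul_smul, Matrix.smul_mul, ← smul_sub, hcom, smul_comm]),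
      smul_smul]
  have h8 : Tendsto (fun m : ℕ => Real.exp (c' * m) * τ) atTop (𝓝 0) := by
    have h9 : Tendsto (fun m : ℕ => c' * (m : ℝ)) atTop atBot :=
      tendsto_natCast_atTop_atTop.const_mul_atTop_of_neg hc'
    have h10 := (Real.tendsto_exp_atBot.comp h9).mul_const τ
    rwa [zero_mul] at h10
  exact (tendsto_exl hY h8).congr fun m => (h7 m).symm

end Pool.Agent.Helper90.OB
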