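import Pool.Agent.Helper90.OB.G2Main
import Pool.Agent.Helper55.OB.Cyc
import Pool.Agent.Helper43.LF.Fin
import Pool.Agent.Helper78.BI.Icc

/-!
# Project OB (MP_0f6f3f_an), layer G2: the final statement
-/

set_option autoImplicit false
set_option linter.unusedSectionVars false

open Filter Topology MeasureTheory Matrix

namespace Pool.Agent.Helper90.OB

open Pool.Agent.Helper84 Pool.Agent.Helper84.GN Pool.Agent.Helper84.GN.S3 Pool.Agent.Helper84.GN.S3.X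
open Pool.Agent.Helper84.NI Pool.Agent.Helper84.GVN Pool.Agent.Helper90.RK
open Pool.Agent.Helper96.RK hiding toReg
open Pool.Agent.Helper66.FR Pool.Agent.Helper84.FR Pool.Agent.Helper55.FR Pool.Agent.Helper55.OB
open Pool.Agent.Helper78.BM
open Pool.Agent.Helper66.RKS Pool.Agent.Helper96.SA Pool.Agent.Helper96.TO
open Pool.Agent.Helper35.TZ (autC isAdj_autC autC_sub)
open Pool.Agent.Helper43.LF (Prox)
open Pool.Agent.Helper45.DC
open Pool.Agent.Helper77.ST (RL lG2)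
open Pool.Agent.Helper78.BI (ergU_dir)

variable {L L' : Type} [LieRing L] [LieAlgebra ℝ L] [LieRing L'] [LieAlgebra ℝ L'] {M M' : ℕ} {θ : L ≃ₗ⁅ℝ⁆ L} {θ' : L' ≃ₗ⁅ℝ⁆ L'}
  {b : Module.Basis (Fin M) ℝ L} {b' : Module.Basis (Fin M') ℝ L'} {A : Submodule ℝ L} {N : ℕ}

theorem sep_pair2 {α β : Module.Dual ℝ A} {Hv Hu : A} (h2 : Module.finrank ℝ A = 2) (hP : Pair2 A α β Hv Hu) (H : A)
    (ha : α H = 0) (hb : β H = 0) : H = 0 := by
  have hf : FiniteDimensional ℝ A := Module.finite_of_finrank_pos (by omega)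
  have hs : Function.Surjective (α.prod β) := by
    rintro ⟨s, t⟩
    refine ⟨s • Hv + t • Hu, ?_⟩
    refine Prod.ext ?_ ?_
    · change α (s • Hv + t • Hu) = s
      rw [map_add, map_smul, map_smul, hP.av, hP.au, smul_eq_mul, smul_eq_mul, mul_one, mul_zero, add_zero]
    · change β (s • Hv + t • Hu) = t
      rw [map_add, map_smul, map_smul, hP.bv, hP.bu, smul_eq_mul, smul_eq_mul, mul_one, mul_zero, zero_add]
  have hi : Function.Injective (α.prod β) :=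
    (LinearMap.injective_iff_surjective_of_finrank_eq_finrank (by rw [h2, Module.finrank_prod, Module.finrank_self])).2 hs
  apply hi
  rw [map_zero]
  refine Prod.ext ?_ ?_
  · exact ha
  · exact hb

variable {X : Type} [MeasurableSpace X] [MulAction (autC b) X] [MeasurableConstSMul (autC b) X] {μ : Measure X}
  [SMulInvariantMeasure (autC b) X μ] [IsProbabilityMeasure μ] {Γ : Subgroup (autC b)} [Countable Γ] {a : Cocy (autC b) X Γ}
  {Γ' : Subgroup (autC b')} {E : Emb Γ Γ'} {P : PH Γ' N} {S : Sv P}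

/-- **Layer G2.** -/
theorem layerG2 [LieAlgebra.IsSimple ℝ L] (h : CartanBasis θ b) (hA : MaxFlat θ A) (h2 : Module.finrank ℝ A = 2)
    {α β : Module.Dual ℝ A} {Hv Hu : A} (hP : Pair2 A α β Hv Hu) (hG : RL A α β lG2 ∨ RL A β α lG2)
    [LieAlgebra.IsSimple ℝ L'] (h' : CartanBasis θ' b') (f : L' ≃ₗ⁅ℝ⁆ so2 N) {r : autC b' → Matrix (Fin N) (Fin N) ℝ}
    (hmul : ∀ g g', r (g * g') = r g * r g' ∨ r (g * g') = -(r g * r g')) (hform : ∀ g, (r g)ᵀ * JR N * r g = JR N)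
    (had : ∀ (g : autC b') (x : L'), r g * (f x : Matrix (Fin N) (Fin N) ℝ) =
        (f (Matrix.toLin b' b' ((g : GL (Fin M') ℝ) : Matrix (Fin M') (Fin M') ℝ) x) : Matrix (Fin N) (Fin N) ℝ) * r g)
    (hL' : Pool.Agent.Helper96.FR.Lattice Γ') (hS : SO2 P S) (hPr : ∀ γ : Γ', P.ι γ = (r (γ : autC b')).map Complex.ofReal)
    (hC : Cyc μ a E) {k k' : ℕ → ℝ} (hk : Tendsto k atTop atTop) (hk' : Tendsto k' atTop atTop)
    (h0 : XPpr (R1 S) (vec μ a E (sq b (Hv : L) k)) ≠ 0) (h0' : XPpr (R2 S) (vec μ a E (sq b (Hu : L) k')) ≠ 0) : False := by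
  have hN := hS.hN
  obtain ⟨i1, i2, i3⟩ := Pool.Agent.Helper35.TZ.lcs_autC b
  obtain ⟨par, hpar, ⟨D⟩⟩ := dir_pair2 h hA hP
  obtain ⟨par', hpar', ⟨D'⟩⟩ := dir_pair2 h hA hP.symm
  have hE : ErgU μ a E (Ctr (sq b (Hv : L) k)) := by
    refine ergU_dir D hC.hinv hC.h3 hC.hK (sq_mem b _ k) ?_
    refine Tendsto.mono_left ?_ Nat.hyperfilter_le_atTop
    exact hk.congr fun n => (hpar (k n)).symm
  have hE' : ErgU μ a E (Ctr (sq b (Hu : L) k')) := by
    refine ergU_dir D' hC.hinv hC.h3 hC.hK (sq_mem b _ k') ?_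
    refine Tendsto.mono_left ?_ Nat.hyperfilter_le_atTop
    exact hk'.congr fun n => (hpar' (k' n)).symm
  have hloc := Pool.Agent.Helper35.OB.am_main (E := E) hS hC.h3
    (Pool.Agent.Helper35.OB.far_of (hC.hF2 1) (far_pair2 h hA hP hk hk'))
  have hp : ∀ k, Prox P k := Pool.Agent.Helper43.LF.prox_lift hN f r hmul hform had hL' hPr
  have hgen : ∀ Z : Subgroup (autC b), IsClosed (Z : Set (autC b)) → cen (sq b (Hv : L) k) ≤ Z → cen (sq b (Hu : L) k') ≤ Z → Z = ⊤ :=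
    fun Z hZ hv hu => gen_pair2 h hA hP Z hZ hv hu
  have hF1 := Pool.Agent.Helper43.LF.full_pt hS (hp 1) hC.coci hC.full hE h0
  have hF2 := Pool.Agent.Helper43.LF.full_ln hS (hp 2) hC.coci hC.full hE' h0'
  have hI := inc_of_am hS hloc
  obtain ⟨B⟩ := layerDC1 hS hC.h3 hC.hK hE hE' hgen h0 h0' hloc hF1
  have hn0 : comG μ a E (R1 S) (pd1 S) (sq b (Hv : L) k) ≠ ⊤ := by
    obtain ⟨q, g, hg, φ, hne⟩ := not_inv_pt (pm_px hS) (pm_pl hS) plf1 hC.h3 hC.hK hgen h0 hI hF2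
    intro htop
    have h3 : (q : autC b) ∈ comG μ a E (R1 S) (pd1 S) (sq b (Hv : L) k) := by
      rw [htop]
      exact Subgroup.mem_top _
    exact hne (h3 g hg φ)
  have hn1 : comG μ a E (R2 S) (pd2 S) (sq b (Hu : L) k') ≠ ⊤ := by
    obtain ⟨q, g, hg, φ, hne⟩ := not_inv_ln (pm_px hS) (pm_pl hS) plf2 hC.h3 hC.hK hgen h0' hI hF1
    intro htop
    have h3 : (q : autC b) ∈ comG μ a E (R2 S) (pd2 S) (sq b (Hu : L) k') := by
      rw [htop]
      exact Subgroup.mem_top _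
    exact hne (h3 g hg φ)
  obtain ⟨τ, hτ⟩ := Pool.Agent.Helper69.SLN.exists_tau h hA
  have hfar : ∀ x : L, x ≠ 0 → ∀ (H : A) (c : ℝ), c ≠ 0 → ⁅(H : L), x⁆ = c • x → ∀ D : Set (autC b),
      (∀ (t : ℝ) (g : autC b), (g : GL (Fin M) ℝ) = ex (t • TT_to b x) → g ∈ D) → ¬ ∃ K : Set (autC b), IsCompact K ∧ D ⊆ K :=
    fun x hx0 H c hc hHx D hD => far_line b hHx hc hx0 fun t => hD t _ (eC_smul b x t)
  have hv1 : 0 < α Hv := by
    rw [hP.av]
    exact one_pos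
  have hu2 : 0 < β Hu := by
    rw [hP.bu]
    exact one_pos
  rcases hG with hR | hR
  · obtain ⟨c1, c2, c3, c4⟩ := cart_G2 h hA hτ hP.sp.ind hR
    have hγ : α + (3 : ℝ) • β ∈ rootsL A := (hR _).2 ⟨(1, 3), by simp [lG2], Or.inl (by simp)⟩
    exact g2_core h (isAdj_autC b) (autC_sub h) hA hτ hP.sp.ha hP.sp.hb (sep_pair2 h2 hP) (p := 3) (q := 1) (by norm_num) (by norm_num)
      c1 c2 c3 c4 hγ hv1 hP.bv hP.au hu2 hS hC.h3 (hC.hF2 1) hC.hK hC.hinv hk hk' B hn0 hn1 hfar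
  · obtain ⟨c1, c2, c3, c4⟩ := cart_G2 h hA hτ hP.symm.sp.ind hR
    have hγ : α + (1 : ℝ) • β ∈ rootsL A := (hR _).2 ⟨(1, 1), by simp [lG2], Or.inl (by
      simp only [Nat.cast_one, one_smul]
      rw [add_comm])⟩
    exact g2_core h (isAdj_autC b) (autC_sub h) hA hτ hP.sp.ha hP.sp.hb (sep_pair2 h2 hP) (p := 1) (q := 3) (by norm_num) (by norm_num)
      c2 c1 c4 c3 hγ hv1 hP.bv hP.au hu2 hS hC.h3 (hC.hF2 1) hC.hK hC.hinv hk hk' B hn0 hn1 hfar

end Pool.Agent.Helper90.OB
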