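import Pool.Agent.Helper45.DC.Ad

/-!
# Project OB (MP_0f6f3f_an), layer G2: the analytic part

`v0, u1, v2, u3`: sequences, `v0`, `v2` are mapped to points, `u1`, `u3` to lines, all four pairs `(v, u)` are incident. `g2_abs`: contradiction, if the elements contracted by `v0` and `v2` act ergodically and the stabilizers of
`v0` and `v2` (of `u1` and `u3`) generate the group. With `D = Φ_{u1}(f) - Φ_{u3}(f)`: `T_{v0} D T_{v2}*` is local (`loc_pt` and polarization), so `Φ_{v0}(g) D = D Φ_{v2}(g) = Φ_{v2}(g) D`.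
-/

set_option autoImplicit false
set_option linter.unusedSectionVars false

open MeasureTheory Filter Topology

namespace Pool.Agent.Helper90.OB

open Pool.Agent.Helper84 Pool.Agent.Helper84.GN Pool.Agent.Helper84.GN.S3 Pool.Agent.Helper84.GN.S3.X
open Pool.Agent.Helper84.NI Pool.Agent.Helper84.GVN Pool.Agent.Helper90.RK
open Pool.Agent.Helper96.RK hiding toReg
open Pool.Agent.Helper66.FR Pool.Agent.Helper84.FR Pool.Agent.Helper55.FR
open Pool.Agent.Helper78.BM Pool.Agent.Helper45.DC Pool.Agent.Helper55.OB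

section Hilb

variable {H K : Type} [NormedAddCommGroup H] [InnerProductSpace ℂ H] [CompleteSpace H] [NormedAddCommGroup K]
  [InnerProductSpace ℂ K] [CompleteSpace K]

theorem adj_comb (A B : H →L[ℂ] K) (z : ℂ) :
    ContinuousLinearMap.adjoint (ContinuousLinearMap.adjoint A + z • ContinuousLinearMap.adjoint B) =
      A + (starRingEnd ℂ) z • B := by
  rw [map_add, LinearIsometryEquiv.map_smulₛₗ, ContinuousLinearMap.adjoint_adjoint, ContinuousLinearMap.adjoint_adjoint]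

/-- Polarization. -/
theorem polar (A B : H →L[ℂ] K) (A' B' : K →L[ℂ] H) (D : H →L[ℂ] H) :
    A.comp (D.comp B') =
      (1 / 4 : ℂ) • ((A + (starRingEnd ℂ) 1 • B).comp (D.comp (A' + (1 : ℂ) • B'))) +
      (-1 / 4 : ℂ) • ((A + (starRingEnd ℂ) (-1) • B).comp (D.comp (A' + (-1 : ℂ) • B'))) +
      ((-Complex.I / 4 : ℂ) • ((A + (starRingEnd ℂ) Complex.I • B).comp (D.comp (A' + Complex.I • B'))) +
      (Complex.I / 4 : ℂ) • ((A + (starRingEnd ℂ) (-Complex.I) • B).comp (D.comp (A' + (-Complex.I) • B')))) := by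
  ext x : 1
  simp only [ContinuousLinearMap.comp_apply, _root_.add_apply, _root_.smul_apply, map_add, map_smul,
    map_neg, map_one, Complex.conj_I, smul_add, smul_smul]
  have hI : Complex.I * Complex.I = -1 := Complex.I_mul_I
  match_scalars
  all_goals
    first
    | (ring_nf; done)
    | (ring_nf; rw [Complex.I_sq]; ring)

end Hilb

section Abs

variable {G1 X G Λ : Type} [Group G1] [TopologicalSpace G1] [IsTopologicalGroup G1] [MeasurableSpace X] [MulAction G1 X]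
  [MeasurableConstSMul G1 X] [Group G] [Group Λ] [Countable Λ] {μ : Measure X} [SMulInvariantMeasure G1 X μ]
  [IsProbabilityMeasure μ] {a : Cocy G1 X Λ} {E : Emb Λ G} {R R1 R2 : Reg G} {pd pd1 pd2 : PD G} {b : ℕ → G1} {N : ℕ}

theorem LocX.add' {T T' : XUa μ R →L[ℂ] XUa μ R} (h : LocX R pd T) (h' : LocX R pd T') : LocX R pd (T + T') := by
  intro A B δ hδ hAB x
  rw [_root_.add_apply, map_add, h A B δ hδ hAB, h' A B δ hδ hAB, add_zero]

theorem LocX.smul' {T : XUa μ R →L[ℂ] XUa μ R} (h : LocX R pd T) (c : ℂ) : LocX R pd (c • T) := by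
  intro A B δ hδ hAB x
  rw [_root_.smul_apply, map_smul, h A B δ hδ hAB, smul_zero]

theorem inc_add {p P : G → MN N} {J J' : XUa μ R1 →L[ℂ] XUa μ R2} (hJ : Inc μ p P J) (hJ' : Inc μ p P J') (z : ℂ) :
    Inc μ p P (J + z • J') := by
  intro i k x
  have h1 := hJ i k x
  have h2 := hJ' i k x
  simp only [_root_.add_apply, _root_.smul_apply, map_add, map_smul]
  rw [Finset.sum_add_distrib, ← Finset.smul_sum, h1, h2]

/-- `sg (T_u T) f = T* Φ_u(f) T`. -/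
theorem sg_comp (T : XUa μ R1 →L[ℂ] XL μ (L2 G)) (f : G → ℂ) :
    sg ((Tb μ a E R2 b).comp T) f = (ContinuousLinearMap.adjoint T).comp ((Po μ a E R2 b f).comp T) := by
  ext x : 1
  refine ext_inner_left ℂ fun y => ?_
  rw [sg_apply, ContinuousLinearMap.adjoint_inner_right]
  simp only [ContinuousLinearMap.comp_apply, Po_apply]
  rw [ContinuousLinearMap.adjoint_inner_right, ContinuousLinearMap.adjoint_inner_right]

/-- The operators `T_{v0} (Φ_{u1}(f) - Φ_{u3}(f)) T_{v2}*` are local. -/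
theorem loc_four {v0 v2 u1 u3 : ℕ → G1} {p P : G → MN N} (hp : Pm pd1 1 p) (hP : Pm pd2 2 P) (hP3 : Min3 P)
    (h3 : Tendsto (fun g : G1 => μ {x | a.a g x ≠ 1}) (𝓝 1) (𝓝 0)) (hE1 : ErgU μ a E (Ctr u1)) (hE3 : ErgU μ a E (Ctr u3))
    (hm : ‖XPpr R2 (vec μ a E u1)‖ = ‖XPpr R2 (vec μ a E u3)‖)
    (h01 : Inc μ p P ((Tb μ a E R2 u1).comp (ContinuousLinearMap.adjoint (Tb μ a E R1 v0))))
    (h21 : Inc μ p P ((Tb μ a E R2 u1).comp (ContinuousLinearMap.adjoint (Tb μ a E R1 v2))))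
    (h03 : Inc μ p P ((Tb μ a E R2 u3).comp (ContinuousLinearMap.adjoint (Tb μ a E R1 v0))))
    (h23 : Inc μ p P ((Tb μ a E R2 u3).comp (ContinuousLinearMap.adjoint (Tb μ a E R1 v2))))
    {f : G → ℂ} (hf : AV R2 pd2 f) :
    LocX R1 pd1 ((Tb μ a E R1 v0).comp ((Po μ a E R2 u1 f - Po μ a E R2 u3 f).comp
      (ContinuousLinearMap.adjoint (Tb μ a E R1 v2)))) := by
  obtain ⟨D, hD⟩ : ∃ D, D = Po μ a E R2 u1 f - Po μ a E R2 u3 f := ⟨_, rfl⟩
  rw [← hD]
  have key : ∀ z : ℂ, LocX R1 pd1 ((Tb μ a E R1 v0 + (starRingEnd ℂ) z • Tb μ a E R1 v2).comp (D.comp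
      (ContinuousLinearMap.adjoint (Tb μ a E R1 v0) + z • ContinuousLinearMap.adjoint (Tb μ a E R1 v2)))) := by
    intro z
    obtain ⟨T, hT⟩ : ∃ T, T = ContinuousLinearMap.adjoint (Tb μ a E R1 v0) +
      z • ContinuousLinearMap.adjoint (Tb μ a E R1 v2) := ⟨_, rfl⟩
    have hTa : ContinuousLinearMap.adjoint T = Tb μ a E R1 v0 + (starRingEnd ℂ) z • Tb μ a E R1 v2 := by
      rw [hT]
      exact adj_comb _ _ z
    have e1 : (Tb μ a E R2 u1).comp T = (Tb μ a E R2 u1).comp (ContinuousLinearMap.adjoint (Tb μ a E R1 v0)) +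
        z • (Tb μ a E R2 u1).comp (ContinuousLinearMap.adjoint (Tb μ a E R1 v2)) := by
      rw [hT, ContinuousLinearMap.comp_add, ContinuousLinearMap.comp_smul]
    have e3 : (Tb μ a E R2 u3).comp T = (Tb μ a E R2 u3).comp (ContinuousLinearMap.adjoint (Tb μ a E R1 v0)) +
        z • (Tb μ a E R2 u3).comp (ContinuousLinearMap.adjoint (Tb μ a E R1 v2)) := by
      rw [hT, ContinuousLinearMap.comp_add, ContinuousLinearMap.comp_smul]
    have h := loc_pt hp hP hP3 (J := (Tb μ a E R2 u1).comp T) (J' := (Tb μ a E R2 u3).comp T)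
      (by rw [e1]; exact inc_add h01 h21 z) (by rw [e3]; exact inc_add h03 h23 z)
      (by
        have e0 : sg ((Tb μ a E R2 u1).comp T) (fun _ => 1) - sg ((Tb μ a E R2 u3).comp T) (fun _ => 1) = 0 := by
          rw [sg_comp, sg_comp]
          ext x : 1
          simp only [_root_.sub_apply, ContinuousLinearMap.comp_apply, _root_.zero_apply]
          rw [Po_one h3 hE1, Po_one h3 hE3, hm, sub_self]
        rw [e0]
        exact loc_zero) hf
    rw [sg_comp, sg_comp, ← ContinuousLinearMap.comp_sub, ← ContinuousLinearMap.sub_comp, ← hD, hTa, hT] at h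
    exact h
  have h1 := key 1
  have h2 := key (-1)
  have h4 := key Complex.I
  have h5 := key (-Complex.I)
  have e := polar (Tb μ a E R1 v0) (Tb μ a E R1 v2) (ContinuousLinearMap.adjoint (Tb μ a E R1 v0))
    (ContinuousLinearMap.adjoint (Tb μ a E R1 v2)) D
  rw [e]
  exact LocX.add' (LocX.add' (LocX.smul' h1 _) (LocX.smul' h2 _)) (LocX.add' (LocX.smul' h4 _) (LocX.smul' h5 _))

/-- Commutation relation: `Φ_{v0}(g) D = D Φ_{v2}(g)`. -/
theorem ph_of_loc {v0 v2 : ℕ → G1} (B0 : BMap μ a E R1 pd1 v0) (B2 : BMap μ a E R1 pd1 v2) {D : XL μ (L2 G) →L[ℂ] XL μ (L2 G)}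
    (h : LocX R1 pd1 ((Tb μ a E R1 v0).comp (D.comp (ContinuousLinearMap.adjoint (Tb μ a E R1 v2))))) {g : G → ℂ}
    (hg : AV R1 pd1 g) (φ : XL μ (L2 G)) : D (B2.Ph g φ) = B0.Ph g (D φ) := by
  refine B0.T_inj ?_
  rw [B0.T_Ph hg]
  have h1 := loc_Mf h hg (Tb μ a E R1 v2 φ)
  change Tb μ a E R1 v0 (D (ContinuousLinearMap.adjoint (Tb μ a E R1 v2) (Mf μ R1 g (Tb μ a E R1 v2 φ)))) =
    Mf μ R1 g (Tb μ a E R1 v0 (D (ContinuousLinearMap.adjoint (Tb μ a E R1 v2) (Tb μ a E R1 v2 φ)))) at h1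
  rw [B2.TT, map_smul, map_smul, map_smul] at h1
  have h2 : ContinuousLinearMap.adjoint (Tb μ a E R1 v2) (Mf μ R1 g (Tb μ a E R1 v2 φ)) = (B2.p : ℂ) • B2.Ph g φ := by
    rw [B2.Ph_apply, smul_smul, mul_inv_cancel₀ B2.pne, one_smul]
  rw [h2, map_smul, map_smul] at h1
  exact smul_right_injective _ B2.pne h1

variable (μ a E R pd) in
/-- The vectors on which two boundary maps agree. -/
noncomputable def eqS {v0 v2 : ℕ → G1} (B0 : BMap μ a E R pd v0) (B2 : BMap μ a E R pd v2) : Submodule ℂ (XL μ (L2 G)) where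
  carrier := {φ | ∀ g, AV R pd g → B0.Ph g φ = B2.Ph g φ}
  add_mem' := by
    intro φ ψ hφ hψ g hg
    rw [map_add, map_add, hφ g hg, hψ g hg]
  zero_mem' := by
    intro g _
    rw [map_zero, map_zero]
  smul_mem' := by
    intro c φ hφ g hg
    rw [map_smul, map_smul, hφ g hg]

theorem mem_eqS {v0 v2 : ℕ → G1} {B0 : BMap μ a E R pd v0} {B2 : BMap μ a E R pd v2} {φ : XL μ (L2 G)} :
    φ ∈ eqS μ a E R pd B0 B2 ↔ ∀ g, AV R pd g → B0.Ph g φ = B2.Ph g φ := Iff.rfl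

theorem isClosed_eqS {v0 v2 : ℕ → G1} (B0 : BMap μ a E R pd v0) (B2 : BMap μ a E R pd v2) :
    IsClosed (eqS μ a E R pd B0 B2 : Set (XL μ (L2 G))) := by
  have e : (eqS μ a E R pd B0 B2 : Set (XL μ (L2 G))) = ⋂ g : {g : G → ℂ // AV R pd g}, {φ | B0.Ph g.1 φ = B2.Ph g.1 φ} := by
    ext φ
    simp only [SetLike.mem_coe, mem_eqS, Set.mem_iInter, Set.mem_ofPred_eq, Subtype.forall]
  rw [e]
  exact isClosed_iInter fun g => isClosed_eq (B0.Ph g.1).continuous (B2.Ph g.1).continuous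

/-- An orthogonal projection commutes with an isometry `u` (with adjoint `u'`) preserving the subspace. -/
theorem proj_comm' {H : Type} [NormedAddCommGroup H] [InnerProductSpace ℂ H] {V : Submodule ℂ H} [V.HasOrthogonalProjection]
    {u u' : H → H} (had : ∀ v w, inner ℂ (u v) w = (inner ℂ v (u' w) : ℂ)) (hu : ∀ v ∈ V, u v ∈ V) (hu' : ∀ v ∈ V, u' v ∈ V)
    (hadd : ∀ v w, u (v - w) = u v - u w) (v : H) : V.starProjection (u v) = u (V.starProjection v) := by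
  refine Submodule.eq_starProjection_of_mem_of_inner_eq_zero (hu _ (Submodule.starProjection_apply_mem V v)) fun w hw => ?_
  rw [← hadd, had]
  exact Submodule.starProjection_inner_eq_zero v _ (hu' w hw)

/-- The two boundary maps agree, or there is no nonzero vector on which they agree. -/
theorem eqS_top (hPS : PSh R pd) (h3 : Tendsto (fun g : G1 => μ {x | a.a g x ≠ 1}) (𝓝 1) (𝓝 0)) {v0 v2 : ℕ → G1}
    (B0 : BMap μ a E R pd v0) (B2 : BMap μ a E R pd v2) {U : Set G1} (hE : ErgU μ a E U) (hUi : ∀ q ∈ U, q⁻¹ ∈ U)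
    (h0 : ∀ q ∈ U, q ∈ Ctr v0) (h2 : ∀ q ∈ U, q ∈ Ctr v2) {φ : XL μ (L2 G)} (hφ : φ ∈ eqS μ a E R pd B0 B2) (hφ0 : φ ≠ 0)
    (ψ : XL μ (L2 G)) : ψ ∈ eqS μ a E R pd B0 B2 := by
  obtain ⟨V, hV⟩ : ∃ V, V = eqS μ a E R pd B0 B2 := ⟨_, rfl⟩
  have hVc : IsClosed (V : Set (XL μ (L2 G))) := hV ▸ isClosed_eqS B0 B2
  have : CompleteSpace V := hVc.completeSpace_coe
  rw [← hV] at hφ ⊢
  have hVm : ∀ χ, χ ∈ V ↔ ∀ g, AV R pd g → B0.Ph g χ = B2.Ph g χ := fun χ => by rw [hV]; rfl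
  have hW : ∀ (k : G) χ, χ ∈ V → Wk μ k χ ∈ V := by
    intro k χ hχ
    rw [hVm] at hχ ⊢
    intro g hg
    obtain ⟨C, hC⟩ := hg.bdd
    have e : g = fun γ => (fun γ => g (γ * k⁻¹)) (γ * k) := by
      funext γ
      change g γ = g (γ * k * k⁻¹)
      rw [mul_inv_cancel_right]
    rw [e, B0.Ph_W (f := fun γ => g (γ * k⁻¹)) (C := C) (fun γ => hC _), B2.Ph_W (f := fun γ => g (γ * k⁻¹)) (C := C) (fun γ => hC _),
      hχ _ (hg.shift hPS k⁻¹)]
  have hx : ∀ {D : Set X}, MeasurableSet D → ∀ χ, χ ∈ V → xE μ (L2 G) D χ ∈ V := by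
    intro D hD χ hχ
    rw [hVm] at hχ ⊢
    intro g hg
    rw [B0.Ph_xE g hD, B2.Ph_xE g hD, hχ g hg]
  have hq : ∀ q ∈ U, ∀ χ, χ ∈ V → Vq μ a E q χ ∈ V := by
    intro q hq χ hχ
    rw [hVm] at hχ ⊢
    intro g hg
    rw [B0.Ph_contr h3 g (h0 q hq), B2.Ph_contr h3 g (h2 q hq), hχ g hg]
  obtain ⟨c, hc⟩ := hE V.starProjection
    (fun D hD χ => proj_comm' (fun v w => xE_symm hD v w) (hx hD) (hx hD) (fun v w => map_sub _ v w) χ)
    (fun k χ => proj_comm' (u := Wk μ k) (u' := Wk μ k⁻¹) (fun v w => by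
      rw [← inner_Wk k v (Wk μ k⁻¹ w), Wk_inv']) (hW k) (hW k⁻¹) (fun v w => map_sub _ v w) χ)
    (fun q hqU χ => proj_comm' (u := Vq μ a E q) (u' := Vq μ a E q⁻¹) (fun v w => inner_Vq_left q v w) (hq q hqU)
      (hq q⁻¹ (hUi q hqU)) (fun v w => map_sub _ v w) χ)
  have h4 : V.starProjection φ = φ := Submodule.starProjection_eq_self_iff.2 hφ
  have hc1 : c = 1 := by
    have h5 := hc φ
    rw [h4] at h5
    have h6 : (1 - c) • φ = 0 := by
      rw [sub_smul, one_smul, ← h5, sub_self]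
    rcases smul_eq_zero.1 h6 with h7 | h7
    · exact (sub_eq_zero.1 h7).symm
    · exact absurd h7 hφ0
  have h5 := hc ψ
  rw [hc1, one_smul] at h5
  rw [← h5]
  exact Submodule.starProjection_apply_mem V ψ

/-- Elements which preserve a boundary map. -/
theorem com_ctr (h3 : Tendsto (fun g : G1 => μ {x | a.a g x ≠ 1}) (𝓝 1) (𝓝 0)) : Ctr b ⊆ (comG μ a E R pd b : Set G1) := by
  intro q hq f _ φ
  exact adj_contr h3 f hq φ

theorem com_cen (hPL : PLf R pd) : cen b ≤ comG μ a E R pd b := by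
  intro q hq f hf φ
  exact Po_cen hPL hf ⟨q, hq⟩ φ

/-- Two sequences with the same (positive operator valued) boundary map. -/
theorem com_eq {v0 v2 : ℕ → G1} (h : ∀ f, AV R pd f → ∀ φ, Po μ a E R v0 f φ = Po μ a E R v2 f φ) :
    comG μ a E R pd v0 = comG μ a E R pd v2 := by
  ext q
  rw [mem_comG, mem_comG]
  constructor
  · intro hq f hf φ
    rw [← h f hf, ← h f hf]
    exact hq f hf φ
  · intro hq f hf φ
    rw [h f hf, h f hf]
    exact hq f hf φ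

theorem g2_abs {v0 v2 u1 u3 : ℕ → G1} {p P : G → MN N} (hp : Pm pd1 1 p) (hP : Pm pd2 2 P) (hP3 : Min3 P)
    (hPS1 : PSh R1 pd1) (hPL1 : PLf R1 pd1) (hPL2 : PLf R2 pd2)
    (h3 : Tendsto (fun g : G1 => μ {x | a.a g x ≠ 1}) (𝓝 1) (𝓝 0)) (hK : Kcont G1 μ)
    (hE1 : ErgU μ a E (Ctr u1)) (hE3 : ErgU μ a E (Ctr u3)) (hm : ‖XPpr R2 (vec μ a E u1)‖ = ‖XPpr R2 (vec μ a E u3)‖)
    (B0 : BMap μ a E R1 pd1 v0) (B2 : BMap μ a E R1 pd1 v2)
    (h01 : Inc μ p P ((Tb μ a E R2 u1).comp (ContinuousLinearMap.adjoint (Tb μ a E R1 v0))))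
    (h21 : Inc μ p P ((Tb μ a E R2 u1).comp (ContinuousLinearMap.adjoint (Tb μ a E R1 v2))))
    (h03 : Inc μ p P ((Tb μ a E R2 u3).comp (ContinuousLinearMap.adjoint (Tb μ a E R1 v0))))
    (h23 : Inc μ p P ((Tb μ a E R2 u3).comp (ContinuousLinearMap.adjoint (Tb μ a E R1 v2))))
    (hgv : ∀ Z : Subgroup G1, IsClosed (Z : Set G1) → cen v0 ≤ Z → cen v2 ≤ Z → Ctr v0 ⊆ Z → Ctr v2 ⊆ Z → Z = ⊤)
    (hgu : ∀ Z : Subgroup G1, IsClosed (Z : Set G1) → cen u1 ≤ Z → cen u3 ≤ Z → Ctr u1 ⊆ Z → Ctr u3 ⊆ Z → Z = ⊤)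
    (hn0 : comG μ a E R1 pd1 v0 ≠ ⊤) (hn1 : comG μ a E R2 pd2 u1 ≠ ⊤)
    {U : Set G1} (hE : ErgU μ a E U) (hUi : ∀ q ∈ U, q⁻¹ ∈ U) (hU0 : ∀ q ∈ U, q ∈ Ctr v0) (hU2 : ∀ q ∈ U, q ∈ Ctr v2) : False := by
  by_cases hD : ∀ f, AV R2 pd2 f → ∀ φ, Po μ a E R2 u1 f φ = Po μ a E R2 u3 f φ
  · have h4 := com_eq hD
    refine hn1 (hgu _ (isClosed_comG h3 hK) (com_cen hPL2) ?_ (com_ctr h3) ?_)
    · rw [h4]
      exact com_cen hPL2
    · rw [h4]
      exact com_ctr h3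
  · push Not at hD
    obtain ⟨f, hf, φ, hφ⟩ := hD
    have hloc := loc_four hp hP hP3 h3 hE1 hE3 hm h01 h21 h03 h23 hf
    have hmem : Po μ a E R2 u1 f φ - Po μ a E R2 u3 f φ ∈ eqS μ a E R1 pd1 B0 B2 := by
      rw [mem_eqS]
      intro g hg
      have h5 := ph_of_loc B0 B2 hloc hg φ
      rw [_root_.sub_apply, _root_.sub_apply, com_pt hp hP hP3 h3 hE1 h21 B2 hf hg φ, com_pt hp hP hP3 h3 hE3 h23 B2 hf hg φ,
        ← map_sub] at h5
      exact h5.symm
    have htop := eqS_top hPS1 h3 B0 B2 hE hUi hU0 hU2 hmem (sub_ne_zero.2 hφ)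
    have hp02 : ∀ g, AV R1 pd1 g → ∀ ψ, B0.Ph g ψ = B2.Ph g ψ := fun g hg ψ => mem_eqS.1 (htop ψ) g hg
    have hcom : ∀ {v : ℕ → G1} (B : BMap μ a E R1 pd1 v) (q : G1), q ∈ comG μ a E R1 pd1 v ↔
        ∀ g, AV R1 pd1 g → ∀ ψ, B.Ph g (Vq μ a E q ψ) = Vq μ a E q (B.Ph g ψ) := by
      intro v B q
      rw [mem_comG]
      refine forall_congr' fun g => forall_congr' fun hg => forall_congr' fun ψ => ?_
      rw [B.Ph_apply, B.Ph_apply, map_smul, ← Po_apply, ← Po_apply]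
      exact ⟨fun h => by rw [h], fun h => smul_right_injective _ (inv_ne_zero B.pne) h⟩
    have h4 : comG μ a E R1 pd1 v0 = comG μ a E R1 pd1 v2 := by
      ext q
      rw [hcom B0, hcom B2]
      refine forall_congr' fun g => forall_congr' fun hg => forall_congr' fun ψ => ?_
      rw [hp02 g hg, hp02 g hg]
    refine hn0 (hgv _ (isClosed_comG h3 hK) (com_cen hPL1) ?_ (com_ctr h3) ?_)
    · rw [h4]
      exact com_cen hPL1
    · rw [h4]
      exact com_ctr h3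

end Abs

end Pool.Agent.Helper90.OB
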