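import Pool.Agent.Helper50.SR.Ma2
import Pool.Agent.Helper77.ST.Defs

/-!
# Project OB (MP_0f6f3f_an), layer G2, block WY: the reflections are in `G`

`w TT_to(H) w⁻¹ = TT_to(H - φ(H) c)`, `c` the coroot of `φ`. PROOF. Let `x ≠ 0` be in the root space of `φ`, `X₀ = TT_to b x`. As in the proof of `maut_gen` (`Helper50/SR/Ma2.lean`, `hplus`; `coroot` in `Helper96/TO/Str.lean`): for a suitable `r > 0` the matrix `X = r X₀` satisfies `T := X Xᵀ - Xᵀ X`, `[T, X] = 2 X`,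
and `T` is a multiple of `cm φ`, the matrix of the functional `φ`; `cm φ = TT_to b (τ φ)` (both are in `A.map (TT_to b)`, and `kA_injective`), so `T = TT_to b c` with `c = (2 / φ(τ φ)) τ φ`.
`w = exp(X) exp(-Xᵀ) exp(X)` satisfies `w T w⁻¹ = -T` (`cc_one`, `cc_two` in `Helper9/FP/Mau.lean`). If `φ H = 0` then `[TT_to b H, X] = 0 = [TT_to b H, Xᵀ]`, so `w` commutes with `TT_to b H`. Every `H` is `(H - (φ H / 2) c) + (φ H / 2) c`, `φ c = 2`. `w ∈ G`: `X, Xᵀ ∈ lie G`.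
-/

set_option autoImplicit false

open MeasureTheory Filter Topology Matrix

namespace Pool.Agent.Helper90.OB

open Pool.Agent.Helper96.SA Pool.Agent.Helper96.FR Pool.Agent.Helper43.TA Pool.Agent.Helper43.TZ Pool.Agent.Helper96.TO

section alg77

open Pool.Agent.Helper9.Mau

variable {A : Type*} [NormedRing A] [NormedAlgebra ℝ A] [CompleteSpace A]

private theorem cc_refl77 {X Y T : A} (hT : X * Y - Y * X = T) (h : T * X - X * T = (2 : ℝ) • X) (h' : T * Y - Y * T = (-2 : ℝ) • Y) :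
    cc X (cc Y (cc X T 1) (-1)) 1 = -T := by
  have hXT : X * T - T * X = (-2 : ℝ) • X := by
    rw [neg_smul, ← h]
    abel
  have hYX : Y * X - X * Y = (-1 : ℝ) • T := by
    rw [neg_smul, one_smul, ← hT]
    abel
  have hYT : Y * T - T * Y = (2 : ℝ) • Y := by
    have : (2 : ℝ) • Y = -((-2 : ℝ) • Y) := by rw [neg_smul, neg_neg]
    rw [this, ← h']
    abel
  have e1 : cc X T 1 = T - (2 : ℝ) • X := by
    rw [cc_one hXT]
    module
  have e2 : cc Y T (-1) = T - (2 : ℝ) • Y := by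
    rw [cc_one hYT]
    module
  have e3 : cc Y X (-1) = X + T - Y := by
    rw [cc_two hYX hYT]
    module
  rw [e1, cc_sub, cc_smul, e2, e3]
  have e4 : T - (2 : ℝ) • Y - (2 : ℝ) • (X + T - Y) = (-1 : ℝ) • T - (2 : ℝ) • X := by module
  rw [e4, cc_sub, cc_smul, cc_smul, e1, cc_self]
  module

private theorem cc_comm77 {X Z : A} (h : X * Z - Z * X = 0) (t : ℝ) : cc X Z t = Z := by
  have h1 : X * Z - Z * X = (0 : ℝ) • Z := by rw [h, zero_smul]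
  rw [cc_eig h1, zero_mul, Real.exp_zero, one_smul]

end alg77

private theorem conj3_77 {N : ℕ} (g₁ g₂ g₃ : GL (Fin N) ℝ) (Z : Mat N) :
    ((g₁ * g₂ * g₃ : GL (Fin N) ℝ) : Mat N) * Z * (((g₁ * g₂ * g₃)⁻¹ : GL (Fin N) ℝ) : Mat N) =
      (g₁ : Mat N) * ((g₂ : Mat N) * ((g₃ : Mat N) * Z * ((g₃⁻¹ : GL (Fin N) ℝ) : Mat N)) * ((g₂⁻¹ : GL (Fin N) ℝ) : Mat N)) *
        ((g₁⁻¹ : GL (Fin N) ℝ) : Mat N) := by
  rw [_root_.mul_inv_rev, _root_.mul_inv_rev, Units.val_mul, Units.val_mul, Units.val_mul, Units.val_mul]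
  simp only [mul_assoc]

/-- The element `w`. -/
private noncomputable def wy77 {N : ℕ} (X : Mat N) : GL (Fin N) ℝ := ex ((1 : ℝ) • X) * ex ((-1 : ℝ) • Xᵀ) * ex ((1 : ℝ) • X)

private theorem wy_refl77 {N : ℕ} {X T : Mat N} (hT : T = X * Xᵀ - Xᵀ * X) (h : T * X - X * T = (2 : ℝ) • X) :
    (wy77 X : Mat N) * T * (((wy77 X)⁻¹ : GL (Fin N) ℝ) : Mat N) = -T := by
  have h' := sl2_tr hT h
  unfold wy77
  rw [conj3_77, ← ex_neg, ← ex_neg, ex_coe, ex_coe, ex_coe, ex_coe, ← neg_smul, ← neg_smul]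
  open scoped Matrix.Norms.Operator in
  exact cc_refl77 (A := Mat N) hT.symm h h'

private theorem wy_comm77 {N : ℕ} {X Z : Mat N} (h : X * Z - Z * X = 0) (h' : Xᵀ * Z - Z * Xᵀ = 0) :
    (wy77 X : Mat N) * Z * (((wy77 X)⁻¹ : GL (Fin N) ℝ) : Mat N) = Z := by
  have e1 : ∀ (Y : Mat N) (t : ℝ), Y * Z - Z * Y = 0 →
      ((ex (t • Y) : GL (Fin N) ℝ) : Mat N) * Z * (((ex (t • Y))⁻¹ : GL (Fin N) ℝ) : Mat N) = Z := by
    intro Y t hY
    rw [← ex_neg, ex_coe, ex_coe, ← neg_smul]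
    open scoped Matrix.Norms.Operator in
    exact cc_comm77 (A := Mat N) hY t
  unfold wy77
  rw [conj3_77, e1 _ _ h, e1 _ _ h', e1 _ _ h]

variable {L : Type} [LieRing L] [LieAlgebra ℝ L] {N : ℕ} {θ : L ≃ₗ⁅ℝ⁆ L} {b : Module.Basis (Fin N) ℝ L}
  {G : Subgroup (GL (Fin N) ℝ)} {A : Submodule ℝ L}

/-- The coroot. -/
noncomputable def cor (τ : Module.Dual ℝ A ≃ₗ[ℝ] A) (φ : Module.Dual ℝ A) : A := (2 / φ (τ φ)) • τ φ

private theorem trace_TT77 (b : Module.Basis (Fin N) ℝ L) (x a : L) :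
    (TT_to b x * TT_to b a).trace = killingForm ℝ L x a := by
  rw [TT_apply_to, TT_apply_to, ← LinearMap.toMatrix_mul, ← LinearMap.trace_eq_matrix_trace]
  rfl

theorem exists_refl [LieAlgebra.IsSimple ℝ L] (h : CartanBasis θ b) (hG : IsAdj b G) (hA : MaxFlat θ A) {τ : Module.Dual ℝ A ≃ₗ[ℝ] A}
    (hτ : ∀ (φ : Module.Dual ℝ A) (a : A), killingForm ℝ L (τ φ : L) (a : L) = φ a) {φ : Module.Dual ℝ A} (hφ : φ ∈ rootsL A) :
    ∃ w : G, ∀ H : A, ((w : GL (Fin N) ℝ) : Mat N) * TT_to b (H : L) * (((w : GL (Fin N) ℝ)⁻¹ : GL (Fin N) ℝ) : Mat N) =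
      TT_to b ((H - φ H • cor τ φ : A) : L) := by
  have hSA := selfAdj_of_aut h hG
  have hV := isFlat_map h hG hA
  obtain ⟨cm, -, hcm, htr, -, hwt⟩ := Pool.Agent.Helper77.LA.exists_cm h hG hA
  have key : cm φ = TT_to b (τ φ : L) := by
    obtain ⟨z, hz, hze⟩ := hcm φ
    have h1 : (⟨z, hz⟩ : A) = τ φ := by
      apply Pool.Agent.Helper69.SLN.kA_injective h hA
      refine LinearMap.ext fun x => ?_
      rw [Pool.Agent.Helper69.SLN.kA_apply, Pool.Agent.Helper69.SLN.kA_apply, hτ, ← trace_TT77 b]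
      change (TT_to b z * TT_to b (x : L)).trace = φ x
      rw [hze]
      exact htr φ x
    rw [← hze, ← h1]
  obtain ⟨hφ0, x, hx0, hx⟩ := hφ
  obtain ⟨X, hXd⟩ : ∃ X, X = TT_to b x := ⟨_, rfl⟩
  have hX0 : X ≠ 0 := fun h3 => hx0 (TT_inj_to h (by rw [← hXd, h3, map_zero]))
  have hXw : Wt G (A.map (TT_to b)) (cm φ) X := hXd ▸ (hwt _ x).1 hx
  have hB0 : cm φ ≠ 0 := by
    intro h3
    refine hφ0 (LinearMap.ext fun H => ?_)
    rw [← htr φ H, h3, Matrix.zero_mul, Matrix.trace_zero, LinearMap.zero_apply]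
  have ht : ∀ X ∈ lie G, Xᵀ ∈ lie G := fun X hX => lie_transpose hSA hX
  have hco := coroot hSA.closed ht hV (max_map h hG hA) (hcm _) hXw
  have hZw := hXw.transpose ht hV.symm
  have ht2 : (cm φ * cm φ).trace = φ (τ φ) := by
    have h3 := htr φ (τ φ)
    rw [← key] at h3
    exact h3
  obtain ⟨t1, ht1⟩ : ∃ t1, t1 = (X * Xᵀ).trace := ⟨_, rfl⟩
  rw [← ht1] at hco
  have p1 : 0 < t1 := ht1 ▸ trace_mul_transpose_pos hX0
  have p2 : 0 < φ (τ φ) := ht2 ▸ trace_self_pos (hV.symm _ (hcm φ)) hB0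
  obtain ⟨t2, ht2d⟩ : ∃ t2, t2 = φ (τ φ) := ⟨_, rfl⟩
  rw [← ht2d] at p2 ht2
  obtain ⟨c, hcd⟩ : ∃ c : ℝ, c = Real.sqrt (2 / (t2 * t1)) := ⟨_, rfl⟩
  have hc2 : c * c * (t2 * t1) = 2 := by
    rw [hcd, Real.mul_self_sqrt (by positivity)]
    exact div_mul_cancel₀ _ (by positivity)
  have hc3 : c * c * t1 = 2 / t2 := by
    rw [eq_div_iff p2.ne', ← hc2]
    ring
  obtain ⟨Y, hY⟩ : ∃ Y, Y = c • X := ⟨_, rfl⟩
  have hYl : Y ∈ lie G := hY ▸ (hXw.smul hSA.closed c).1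
  have hYtl : Yᵀ ∈ lie G := ht _ hYl
  obtain ⟨T, hT⟩ : ∃ T, T = Y * Yᵀ - Yᵀ * Y := ⟨_, rfl⟩
  have hTB : T = (2 / t2) • cm φ := by
    rw [hT, hY, Matrix.transpose_smul, Matrix.smul_mul, Matrix.mul_smul, Matrix.smul_mul, Matrix.mul_smul, smul_smul, smul_smul, ← smul_sub, hco, smul_smul, hc3]
  have hTc : T = TT_to b ((cor τ φ : A) : L) := by
    rw [hTB, key, cor, ← ht2d, Submodule.coe_smul, map_smul]
  have hbr : ∀ H : A, TT_to b (H : L) * Y - Y * TT_to b (H : L) = φ H • Y := by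
    intro H
    have h3 := hXw.2 (TT_to b H) ⟨H, H.2, rfl⟩
    rw [htr] at h3
    rw [hY, Matrix.mul_smul, Matrix.smul_mul, ← smul_sub, h3, smul_comm]
  have hbr' : ∀ H : A, TT_to b (H : L) * Yᵀ - Yᵀ * TT_to b (H : L) = (-φ H) • Yᵀ := by
    intro H
    have h3 := hZw.2 (TT_to b H) ⟨H, H.2, rfl⟩
    rw [Matrix.neg_mul, Matrix.trace_neg, htr] at h3
    rw [hY, Matrix.transpose_smul, Matrix.mul_smul, Matrix.smul_mul, ← smul_sub, h3, smul_comm]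
  have hφc : φ (cor τ φ) = 2 := by
    rw [cor, map_smul, smul_eq_mul, ← ht2d]
    exact div_mul_cancel₀ _ p2.ne'
  have hTY : T * Y - Y * T = (2 : ℝ) • Y := by
    rw [hTc, hbr, hφc]
  have m1 : ex ((1 : ℝ) • Y) ∈ G := mem_lie.1 hYl 1
  have m2 : ex ((-1 : ℝ) • Yᵀ) ∈ G := mem_lie.1 hYtl (-1)
  refine ⟨⟨wy77 Y, G.mul_mem (G.mul_mem m1 m2) m1⟩, fun H => ?_⟩
  obtain ⟨s, hs⟩ : ∃ s, s = φ H := ⟨_, rfl⟩
  obtain ⟨H₀, hH₀⟩ : ∃ H₀ : A, H₀ = H - (s / 2) • cor τ φ := ⟨_, rfl⟩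
  have h0 : φ H₀ = 0 := by
    rw [hH₀, map_sub, map_smul, hφc, smul_eq_mul, ← hs]
    ring
  have hHd : TT_to b (H : L) = TT_to b (H₀ : L) + (s / 2) • T := by
    rw [hTc, ← map_smul, ← map_add, hH₀, Submodule.coe_sub, Submodule.coe_smul, sub_add_cancel]
  have hHe : TT_to b ((H - φ H • cor τ φ : A) : L) = TT_to b (H₀ : L) - (s / 2) • T := by
    rw [hTc, ← map_smul, ← map_sub, hH₀, Submodule.coe_sub, Submodule.coe_smul, Submodule.coe_sub, Submodule.coe_smul, ← hs]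
    congr 1
    module
  have c1 : Y * TT_to b (H₀ : L) - TT_to b (H₀ : L) * Y = 0 := by
    rw [← neg_sub, hbr, h0, zero_smul, neg_zero]
  have c2 : Yᵀ * TT_to b (H₀ : L) - TT_to b (H₀ : L) * Yᵀ = 0 := by
    rw [← neg_sub, hbr', h0, neg_zero, zero_smul, neg_zero]
  rw [hHe, hHd]
  change (wy77 Y : Mat N) * (TT_to b (H₀ : L) + (s / 2) • T) * (((wy77 Y)⁻¹ : GL (Fin N) ℝ) : Mat N) = _
  rw [Matrix.mul_add, Matrix.add_mul, wy_comm77 c1 c2, Matrix.mul_smul, Matrix.smul_mul, wy_refl77 hT hTY, smul_neg, sub_eq_add_neg]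

end Pool.Agent.Helper90.OB
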