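import Pool.Agent.Helper77.ST.ARefl
import Pool.Agent.Helper90.OB.G2Weyl

/-!
# Project OB (MP_0f6f3f_an), layer G2: the Cartan integers of type `G₂`
-/

set_option autoImplicit false

open Matrix

namespace Pool.Agent.Helper90.OB

open Pool.Agent.Helper96.SA Pool.Agent.Helper96.TO Pool.Agent.Helper69.SLN Pool.Agent.Helper77.LA Pool.Agent.Helper77.ST

variable {L : Type} [LieRing L] [LieAlgebra ℝ L] {N : ℕ} {θ : L ≃ₗ⁅ℝ⁆ L} {b : Module.Basis (Fin N) ℝ L} {A : Submodule ℝ L}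
  {al be : Module.Dual ℝ A}

/-- Coordinates of a root. -/
theorem coord_G2 (ind : ∀ s t : ℝ, s • al + t • be = 0 → s = 0 ∧ t = 0) (hR : RL A al be lG2) {x y : ℝ}
    (h : x • al + y • be ∈ rootsL A) : ∃ p ∈ lG2, (x = p.1 ∧ y = p.2) ∨ (x = -(p.1 : ℝ) ∧ y = -(p.2 : ℝ)) := by
  obtain ⟨p, hp, h1 | h1⟩ := (hR _).1 h
  · obtain ⟨h2, h3⟩ := ind (x - p.1) (y - p.2) (by
      rw [← sub_eq_zero.2 h1]
      module)
    exact ⟨p, hp, Or.inl ⟨by linarith, by linarith⟩⟩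
  · obtain ⟨h2, h3⟩ := ind (x + p.1) (y + p.2) (by
      rw [← sub_eq_zero.2 h1]
      module)
    exact ⟨p, hp, Or.inr ⟨by linarith, by linarith⟩⟩

theorem cart_G2 (h : CartanBasis θ b) (hA : MaxFlat θ A) {τ : Module.Dual ℝ A ≃ₗ[ℝ] A}
    (hτ : ∀ (φ : Module.Dual ℝ A) (a : A), killingForm ℝ L (τ φ : L) (a : L) = φ a)
    (ind : ∀ s t : ℝ, s • al + t • be = 0 → s = 0 ∧ t = 0) (hR : RL A al be lG2) :
    al (cor τ al) = 2 ∧ be (cor τ be) = 2 ∧ al (cor τ be) = -3 ∧ be (cor τ al) = -1 := by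
  have hal : al ∈ rootsL A := (hR _).2 ⟨(1, 0), by simp [lG2], Or.inl (by simp)⟩
  have hbe : be ∈ rootsL A := (hR _).2 ⟨(0, 1), by simp [lG2], Or.inl (by simp)⟩
  have h13 : al + (3 : ℝ) • be ∈ rootsL A := (hR _).2 ⟨(1, 3), by simp [lG2], Or.inl (by simp)⟩
  have pa := tau_pos hτ h hA hal.1
  have pb := tau_pos hτ h hA hbe.1
  have key : ∀ φ ψ : Module.Dual ℝ A, φ (cor τ ψ) = 2 * φ (τ ψ) / ψ (τ ψ) := by
    intro φ ψ
    unfold cor
    rw [map_smul, smul_eq_mul]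
    ring
  obtain ⟨n, hn, hn2⟩ := refl h hA hτ hal hbe
  obtain ⟨n', hn', hn2'⟩ := refl h hA hτ h13 hbe
  obtain ⟨m, hm, hm2⟩ := refl h hA hτ hbe hal
  have e1 : (n' : ℝ) = n + 6 := by
    rw [LinearMap.add_apply, LinearMap.smul_apply, smul_eq_mul] at hn'
    have h1 : (n' : ℝ) * be (τ be) = (n + 6) * be (τ be) := by linarith
    exact mul_right_cancel₀ pb.ne' h1
  obtain ⟨p, hp, h1⟩ := coord_G2 ind hR (x := 1) (y := -n) (by
    have : (1 : ℝ) • al + (-(n : ℝ)) • be = al - (n : ℝ) • be := by module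
    rwa [this])
  obtain ⟨p', hp', h1'⟩ := coord_G2 ind hR (x := 1) (y := -(n + 3)) (by
    have : (1 : ℝ) • al + (-((n : ℝ) + 3)) • be = al + (3 : ℝ) • be - (n' : ℝ) • be := by
      rw [e1]
      module
    rwa [this])
  obtain ⟨q, hq, h2⟩ := coord_G2 ind hR (x := -m) (y := 1) (by
    have : (-(m : ℝ)) • al + (1 : ℝ) • be = be - (m : ℝ) • al := by module
    rwa [this])
  have hn3 : (n : ℝ) = -3 := by
    simp only [lG2, List.mem_cons, List.not_mem_nil, or_false] at hp hp'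
    have a1 : (n : ℝ) ≤ 0 ∧ (-3 : ℝ) ≤ n := by
      rcases hp with rfl | rfl | rfl | rfl | rfl | rfl <;> rcases h1 with ⟨h3, h4⟩ | ⟨h3, h4⟩ <;> push_cast at h3 h4 <;>
        constructor <;> linarith
    have a2 : (n : ℝ) + 3 ≤ 0 := by
      rcases hp' with rfl | rfl | rfl | rfl | rfl | rfl <;> rcases h1' with ⟨h3, h4⟩ | ⟨h3, h4⟩ <;> push_cast at h3 h4 <;>
        linarith
    linarith
  have hm1 : (m : ℝ) = -1 := by
    have hm0 : (m : ℝ) ≠ 0 := by
      intro h0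
      rw [h0, zero_mul, tau_symm hτ] at hm
      rw [hm, hn3] at hn
      linarith
    simp only [lG2, List.mem_cons, List.not_mem_nil, or_false] at hq
    rcases hq with rfl | rfl | rfl | rfl | rfl | rfl <;> rcases h2 with ⟨h3, h4⟩ | ⟨h3, h4⟩ <;> push_cast at h3 h4 <;>
      first
      | linarith
      | exact absurd (by linarith : (m : ℝ) = 0) hm0
  refine ⟨?_, ?_, ?_, ?_⟩
  · rw [key]
    field_simp
  · rw [key]
    field_simp
  · rw [key, hn, hn3]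
    field_simp
  · rw [key, hm, hm1]
    field_simp

end Pool.Agent.Helper90.OB
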