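import Pool.Agent.Helper78.BM.Phi

/-!
# Project OB (MP_0f6f3f_an), layer G2, block CJ: conjugate sequences

`b' n = w * b n * w⁻¹`. `lU w`: the operator of left translation by `w` on `XUa μ R` (`oL` for the constant sequence `1`); `tb_left`: `T_{w b} = lU w T_b`, `tb_conj`: `T_{w b w⁻¹} = lU w T_b V_w⁻¹`. `lU w` is isometric on the range of `T_b` and commutes with the functions which are
uniformly continuous at infinity; so there is a boundary map for `b'` if there is one for `b` (`bmap_conj`), and the masses are equal (`norm_conj`).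
-/

set_option autoImplicit false
set_option linter.unusedSectionVars false

open MeasureTheory Filter Topology

namespace Pool.Agent.Helper90.OB

open Pool.Agent.Helper84 Pool.Agent.Helper84.GN Pool.Agent.Helper84.GN.S3 Pool.Agent.Helper84.GN.S3.X
open Pool.Agent.Helper84.NI Pool.Agent.Helper84.GVN Pool.Agent.Helper90.RK
open Pool.Agent.Helper96.RK hiding toReg
open Pool.Agent.Helper66.FR Pool.Agent.Helper84.FR Pool.Agent.Helper55.FR Pool.Agent.Helper78.BM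

variable {G1 X G Λ : Type} [Group G1] [TopologicalSpace G1] [IsTopologicalGroup G1] [MeasurableSpace X] [MulAction G1 X]
  [MeasurableConstSMul G1 X] [Group G] [Group Λ] [Countable Λ] {μ : Measure X} [SMulInvariantMeasure G1 X μ]
  [IsProbabilityMeasure μ] {a : Cocy G1 X Λ} {E : Emb Λ G} {R : Reg G} {pd : PD G} {b : ℕ → G1}

theorem mem_c1 (w : G1) : w ∈ cen (fun _ : ℕ => (1 : G1)) := mem_cen.2 fun n => by rw [one_mul, mul_one]

/-- `w` as an element of the centraliser of the constant sequence. -/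
def w1 (w : G1) : cen (fun _ : ℕ => (1 : G1)) := ⟨w, mem_c1 w⟩

theorem w1_inv (w : G1) : (w1 w)⁻¹ = w1 w⁻¹ := Subtype.ext rfl

/-- The left translation. -/
noncomputable def lU (μ : Measure X) [SMulInvariantMeasure G1 X μ] [IsProbabilityMeasure μ] (a : Cocy G1 X Λ)
    (E : Emb Λ G) (R : Reg G) (w : G1) : XUa μ R →L[ℂ] XUa μ R := oL μ a E R (fun _ : ℕ => (1 : G1)) (w1 w)

/-- The left operators on `vec b`, every sequence `b`. -/
theorem opL_vec' (w : G1) (b : ℕ → G1) :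
    opL (xmU μ (fun _ : ℕ => (1 : G1)) (L2 G)) (cres a (cen fun _ : ℕ => (1 : G1))) (CRep.ext (AE μ G) E) (w1 w) (vec μ a E b) =
      vec μ a E fun n => w * b n := by
  rw [opL_apply, xmU_S]
  unfold vec
  rw [twx_zt (fun _ : ℕ => (1 : G1)) (fun _ => mea_a _ _) ((cres a (cen fun _ : ℕ => (1 : G1))).meas (w1 w)),
    sS_zt _ fun n => ((cres a (cen fun _ : ℕ => (1 : G1))).meas (w1 w)).mul (mea_a _ _)]
  congr 1
  funext n x
  rw [cres_a]
  change a.a w (w⁻¹ • x) * a.a (b n) ((b n)⁻¹ • w⁻¹ • x) = a.a (w * b n) ((w * b n)⁻¹ • x)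
  have h1 := a.mul w (b n) ((b n)⁻¹ • w⁻¹ • x)
  rw [smul_inv_smul] at h1
  rw [← h1, mul_inv_rev, mul_smul]

theorem lU_py (w : G1) {D : Set X} (hD : MeasurableSet D) (x : XUa μ R) :
    lU μ a E R w ((pyU μ b R).p D x) = (pyU μ (fun n => w * b n) R).p D (lU μ a E R w x) := by
  have hc : Mea ((cres a (cen fun _ : ℕ => (1 : G1))).a (w1 w)) := (cres a (cen fun _ : ℕ => (1 : G1))).meas (w1 w)
  have h1 := tw_comm (xmUa μ (fun _ : ℕ => (1 : G1)) R).px (CRep.ext (XAU R) E)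
    (uhomU (μ := μ) (R := R) (b := fun _ : ℕ => (1 : G1)) (E := E)).px hc
    (T := (pyU μ b R).p D)
    (fun A hA ξ => ((xmUa μ b R).comm A D hA hD ξ).symm)
    (fun l ξ => (((uhomU (μ := μ) (R := R) (b := b) (E := E)) l).y D hD ξ).symm) x
  change (xmUa μ (fun _ : ℕ => (1 : G1)) R).S (w1 w) (tw (xmUa μ (fun _ : ℕ => (1 : G1)) R).px (CRep.ext (XAU R) E)
    ((cres a (cen fun _ : ℕ => (1 : G1))).a (w1 w)) ((pyU μ b R).p D x)) = _
  rw [← h1]
  apply Subtype.ext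
  obtain ⟨y, hy⟩ : ∃ y : XUa μ R, y = tw (xmUa μ (fun _ : ℕ => (1 : G1)) R).px (CRep.ext (XAU R) E)
    ((cres a (cen fun _ : ℕ => (1 : G1))).a (w1 w)) x := ⟨_, rfl⟩
  have hy2 : lU μ a E R w x = (xmUa μ (fun _ : ℕ => (1 : G1)) R).S (w1 w) y := by
    rw [hy]
    rfl
  rw [hy2, ← hy]
  change UE.sS μ (L2 G) (fun _ => w) (UE.P μ (L2 G) (fun n => (fun x => (b n)⁻¹ • x) ⁻¹' D) (y : UE μ (L2 G))) =
    UE.P μ (L2 G) (fun n => (fun x => (w * b n)⁻¹ • x) ⁻¹' D) (UE.sS μ (L2 G) (fun _ => w) (y : UE μ (L2 G)))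
  rw [UE.sS_P _ fun n => (measurable_const_smul _) hD]
  have e : (fun n => (fun x => (w : G1)⁻¹ • x) ⁻¹' ((fun x => (b n)⁻¹ • x) ⁻¹' D)) =
      fun n => (fun x => (w * b n)⁻¹ • x) ⁻¹' D := by
    funext n
    ext x
    change (b n)⁻¹ • w⁻¹ • x ∈ D ↔ (w * b n)⁻¹ • x ∈ D
    rw [mul_inv_rev, mul_smul]
  rw [e]

/-- The boundary operator for the translated sequence. -/
theorem tb_left (w : G1) (φ : XL μ (L2 G)) :
    Tb μ a E R (fun n => w * b n) φ = lU μ a E R w (Tb μ a E R b φ) := by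
  have h0 : Tb μ a E R (fun n => w * b n) (cst μ (dl 1)) = lU μ a E R w (Tb μ a E R b (cst μ (dl 1))) := by
    rw [Tb_one, Tb_one, ← opL_vec' w b, XPpr_opL]
    rfl
  have h : Tb μ a E R (fun n => w * b n) = (lU μ a E R w).comp (Tb μ a E R b) := by
    refine xl_clm_ext fun s hs k => ?_
    have e1 : xE μ (L2 G) s (cst μ (dl k)) = xE μ (L2 G) s (Wk μ k (cst μ (dl 1))) := by
      rw [cl_cst]
      congr 2
      change dl k = lamU k (dl 1)
      rw [lamU_dl, mul_one]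
    change Tb μ a E R (fun n => w * b n) (xE μ (L2 G) s (cst μ (dl k))) =
      lU μ a E R w (Tb μ a E R b (xE μ (L2 G) s (cst μ (dl k))))
    have e2 : ∀ x : XUa μ R, lU μ a E R w (XBU R k x) = XBU R k (lU μ a E R w x) := fun x =>
      oL_XBU (w1 w) k x
    rw [e1, Tb_xE hs, Tb_xE hs, Tb_W, Tb_W, h0, lU_py w hs, e2]
  exact DFunLike.congr_fun h φ

/-- The boundary operator for the conjugate sequence. -/
theorem tb_conj (w : G1) (φ : XL μ (L2 G)) :
    Tb μ a E R (fun n => w * b n * w⁻¹) φ = lU μ a E R w (Tb μ a E R b (Vq μ a E w⁻¹ φ)) := by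
  rw [← tb_left, Tb_V, Tb_eq]

theorem lU_adj (w : G1) (x y : XUa μ R) :
    inner ℂ (lU μ a E R w x) y = inner ℂ x (lU μ a E R w⁻¹ y) := by
  have h := Pool.Agent.Helper84.FR.opL_adj (xmUa μ (fun _ : ℕ => (1 : G1)) R) (cres a (cen fun _ : ℕ => (1 : G1)))
    (uhomU (μ := μ) (R := R) (b := fun _ : ℕ => (1 : G1)) (E := E)) (w1 w) x y
  rw [w1_inv] at h
  exact h

theorem lU_mul (w w' : G1) (x : XUa μ R) : lU μ a E R (w * w') x = lU μ a E R w (lU μ a E R w' x) := by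
  have h := Pool.Agent.Helper84.FR.opL_mul (xmUa μ (fun _ : ℕ => (1 : G1)) R) (cres a (cen fun _ : ℕ => (1 : G1)))
    (uhomU (μ := μ) (R := R) (b := fun _ : ℕ => (1 : G1)) (E := E)) (w1 w) (w1 w') x
  exact h

theorem lU_one_tb (φ : XL μ (L2 G)) : lU μ a E R (1 : G1) (Tb μ a E R b φ) = Tb μ a E R b φ := by
  rw [← tb_left]
  simp only [one_mul]

theorem inner_lU (w : G1) (φ ψ : XL μ (L2 G)) :
    inner ℂ (lU μ a E R w (Tb μ a E R b φ)) (lU μ a E R w (Tb μ a E R b ψ)) = inner ℂ (Tb μ a E R b φ) (Tb μ a E R b ψ) := by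
  rw [lU_adj, ← lU_mul, inv_mul_cancel, lU_one_tb]

theorem lU_Mf (hP : PLf R pd) {f : G → ℂ} (hf : AV R pd f) (w : G1) (x : XUa μ R) :
    lU μ a E R w (Mf μ R f x) = Mf μ R f (lU μ a E R w x) := oL_Mf hP hf (w1 w) x

theorem inner_Vq_l (q : G1) (φ ψ : XL μ (L2 G)) :
    inner ℂ (Vq μ a E q φ) ψ = inner ℂ φ (Vq μ a E q⁻¹ ψ) := by
  rw [← inner_Vq (a := a) (E := E) q φ (Vq μ a E q⁻¹ ψ), Vq_inv']

theorem adj_conj (w : G1) (x : XUa μ R) :
    ContinuousLinearMap.adjoint (Tb μ a E R (fun n => w * b n * w⁻¹)) x =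
      Vq μ a E w (ContinuousLinearMap.adjoint (Tb μ a E R b) (lU μ a E R w⁻¹ x)) := by
  refine ext_inner_left ℂ fun φ => ?_
  rw [ContinuousLinearMap.adjoint_inner_right, tb_conj, lU_adj, ← ContinuousLinearMap.adjoint_inner_right, inner_Vq_l, inv_inv]

theorem bmap_conj (hP : PLf R pd) (B : BMap μ a E R pd b) (w : G1) :
    Nonempty (BMap μ a E R pd fun n => w * b n * w⁻¹) := by
  refine ⟨⟨B.p, B.pos, fun φ => ?_, ?_⟩⟩
  · refine ext_inner_left ℂ fun ψ => ?_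
    rw [ContinuousLinearMap.adjoint_inner_right, tb_conj, tb_conj, inner_lU, B.inner_T, inner_Vq, inner_smul_right]
  · refine loc_of_Mf fun f hf hfb x => ?_
    obtain ⟨C, hC⟩ := hfb
    have hav : AV R pd f := AV.of_uc hf hC
    change Tb μ a E R (fun n => w * b n * w⁻¹) (ContinuousLinearMap.adjoint (Tb μ a E R (fun n => w * b n * w⁻¹))
      (Mf μ R f x)) = Mf μ R f (Tb μ a E R (fun n => w * b n * w⁻¹)
        (ContinuousLinearMap.adjoint (Tb μ a E R (fun n => w * b n * w⁻¹)) x))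
    have h1 := loc_Mf B.loc hav (lU μ a E R w⁻¹ x)
    change Tb μ a E R b (ContinuousLinearMap.adjoint (Tb μ a E R b) (Mf μ R f (lU μ a E R w⁻¹ x))) =
      Mf μ R f (Tb μ a E R b (ContinuousLinearMap.adjoint (Tb μ a E R b) (lU μ a E R w⁻¹ x))) at h1
    rw [adj_conj, adj_conj, tb_conj, tb_conj, Vq_inv, Vq_inv, lU_Mf hP hav, h1, lU_Mf hP hav]

theorem norm_conj (hE : ErgU μ a E (Ctr b)) (h3 : Tendsto (fun g : G1 => μ {x | a.a g x ≠ 1}) (𝓝 1) (𝓝 0)) (w : G1) :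
    ‖XPpr R (vec μ a E fun n => w * b n * w⁻¹)‖ = ‖XPpr R (vec μ a E b)‖ := by
  have h1 := exists_mass (R := R) hE h3
  have h2 : inner ℂ (XPpr R (vec μ a E fun n => w * b n * w⁻¹)) (XPpr R (vec μ a E fun n => w * b n * w⁻¹)) =
      ((‖XPpr R (vec μ a E b)‖ ^ 2 : ℝ) : ℂ) := by
    rw [← Tb_one, tb_conj, inner_lU, ← ContinuousLinearMap.adjoint_inner_right, h1, inner_smul_right, inner_Vq,
      inner_self_eq_norm_sq_to_K, LinearIsometry.norm_map, norm_dl]
    simp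
  rw [inner_self_eq_norm_sq_to_K] at h2
  have h3 : ‖XPpr R (vec μ a E fun n => w * b n * w⁻¹)‖ ^ 2 = ‖XPpr R (vec μ a E b)‖ ^ 2 := by
    apply Complex.ofReal_injective
    rw [← h2]
    norm_cast
  exact (sq_eq_sq₀ (norm_nonneg _) (norm_nonneg _)).1 h3

end Pool.Agent.Helper90.OB
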