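import Pool.Agent.Helper50.SR.Ma2
import Pool.Agent.Helper69.SLN.Root

/-!
# Project OB (MP_0f6f3f_an), layer G2, block GN: generation by parabolic subgroups

`H 0 + H 1 + H 2 = 0`; a closed subgroup `Z` of `G` which contains, for `i = 0, 1, 2`, the `exp X` with `[H i, X] = c X`, `c ≤ 0`, is `G`. PROOF. `Z' = Z.map G.subtype` is closed in `GL` (as `K'` in `mautner_lie`, `Helper43/TA/SMaut.lean`), `lie Z'` is a vector space closed under brackets (`lie_submodule`, `lie_bracket`), so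
`I = {x | TT_to b x ∈ lie Z'}` is a Lie subalgebra of `L` (as in `maut_gen`). For every functional `φ` of `A` one of the `φ (H i)` is `≤ 0` (their sum is `0`), so `I` contains all the `x` with `⁅h, x⁆ = φ h • x` for all `h ∈ A` (`TT_lie_to`; for all `t`, `t • X` satisfies the same hypothesis, `mem_lie`). They span `L` (`span_rootSp`, `Helper50/SR/Ma0.lean`), so
`I = ⊤`, all the `ex (ad x)` are in `Z'`, and `G ≤ Z'` by `hc`.
-/

set_option autoImplicit false

open MeasureTheory Filter Topology Matrix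

namespace Pool.Agent.Helper90.OB

open Pool.Agent.Helper96.SA Pool.Agent.Helper96.FR Pool.Agent.Helper43.TA Pool.Agent.Helper43.TZ Pool.Agent.Helper96.TO

variable {L : Type} [LieRing L] [LieAlgebra ℝ L] {N : ℕ} {θ : L ≃ₗ⁅ℝ⁆ L} {b : Module.Basis (Fin N) ℝ L}
  {G : Subgroup (GL (Fin N) ℝ)} {A : Submodule ℝ L}

theorem gen_par [LieAlgebra.IsSimple ℝ L] (h : CartanBasis θ b) (hG : IsAdj b G)
    (hc : (G : Set (GL (Fin N) ℝ)) ⊆ closure (Subgroup.closure (Set.range fun x : L => ex (LinearMap.toMatrix b b (LieAlgebra.ad ℝ L x))) : Set (GL (Fin N) ℝ)))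
    (hA : MaxFlat θ A) {H : Fin 3 → A} (hH : H 0 + H 1 + H 2 = 0) (Z : Subgroup G) (hZ : IsClosed (Z : Set G))
    (hZ' : ∀ (i : Fin 3) (X : Mat N) (hX : X ∈ lie G) (c : ℝ), c ≤ 0 →
      TT_to b (H i : L) * X - X * TT_to b (H i : L) = c • X → ∀ g : G, (g : GL (Fin N) ℝ) = ex X → g ∈ Z) : Z = ⊤ := by
  obtain ⟨G', hG'⟩ : ∃ G' : Subgroup (GL (Fin N) ℝ), G' = Z.map G.subtype := ⟨_, rfl⟩
  have hcl : IsClosed (G' : Set (GL (Fin N) ℝ)) := by
    rw [hG', Subgroup.coe_map]
    exact (hG.closed.isClosedEmbedding_subtypeVal.isClosedMap) _ hZ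
  have hlie : lie G = lie (autG b) := lie_eq' hG.aut (Pool.Agent.Helper96.SA.lie_sub h hG)
  have hT : ∀ x : L, TT_to b x ∈ lie G := fun x => by
    rw [hlie]
    exact TT_mem_to b x
  obtain ⟨W, hW⟩ := lie_submodule hcl
  have hmW : ∀ X, X ∈ lie G' ↔ X ∈ W := fun X => by rw [← hW, SetLike.mem_coe]
  have hbase : ∀ (φ : Module.Dual ℝ A) (x : L), Pool.Agent.Helper69.SLN.Wv A φ x → TT_to b x ∈ W := by
    intro φ x hx
    obtain ⟨i, hi⟩ : ∃ i, φ (H i) ≤ 0 := by
      by_contra hcc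
      push Not at hcc
      have h3 := congrArg φ hH
      rw [map_add, map_add, map_zero] at h3
      have h4 := hcc 0
      have h5 := hcc 1
      have h6 := hcc 2
      linarith
    rw [← hmW, mem_lie]
    intro t
    have hm : t • TT_to b x ∈ lie G := by
      rw [← map_smul]
      exact hT _
    rw [hG']
    refine ⟨⟨ex (t • TT_to b x), mem_lie.1 (hT x) t⟩, ?_, rfl⟩
    refine hZ' i (t • TT_to b x) hm (φ (H i)) hi ?_ _ rfl
    rw [Matrix.mul_smul, Matrix.smul_mul, ← smul_sub, ← TT_lie_to, hx, map_smul, smul_comm]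
  have hall : (⊤ : Submodule ℝ L) ≤ W.comap (TT_to b) := by
    rw [← Pool.Agent.Helper69.SLN.span_weights h hA, Submodule.span_le]
    rintro x ⟨φ, hx⟩
    exact hbase φ x hx
  rw [eq_top_iff]
  intro g _
  have h2 : Subgroup.closure (Set.range fun x : L => ex (LinearMap.toMatrix b b (LieAlgebra.ad ℝ L x))) ≤ G' := by
    rw [Subgroup.closure_le]
    rintro _ ⟨x, rfl⟩
    have h3 : TT_to b x ∈ lie G' := (hmW _).2 (hall Submodule.mem_top)
    have h4 := mem_lie.1 h3 1
    rw [one_smul] at h4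
    exact h4
  have h3 : (g : GL (Fin N) ℝ) ∈ G' := hcl.closure_subset_iff.2 h2 (hc g.2)
  rw [hG'] at h3
  obtain ⟨z, hz, hzg⟩ := h3
  have h4 : z = g := Subtype.ext hzg
  rwa [← h4]

end Pool.Agent.Helper90.OB
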