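import Pool.Agent.Helper90.OB.G2Abs
import Pool.Agent.Helper90.OB.G2Cj
import Pool.Agent.Helper90.OB.G2Gen
import Pool.Agent.Helper90.OB.G2Maut
import Pool.Agent.Helper90.OB.G2Cart
import Pool.Agent.Helper35.OB.AM

/-!
# Project OB (MP_0f6f3f_an), layer G2: sources of type `G₂` are excluded
-/

set_option autoImplicit false
set_option linter.unusedSectionVars false

open MeasureTheory Filter Topology Matrix

namespace Pool.Agent.Helper90.OB

open Pool.Agent.Helper84 Pool.Agent.Helper84.GN Pool.Agent.Helper84.GN.S3 Pool.Agent.Helper84.GN.S3.X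
open Pool.Agent.Helper84.NI Pool.Agent.Helper84.GVN Pool.Agent.Helper90.RK
open Pool.Agent.Helper96.RK hiding toReg
open Pool.Agent.Helper66.FR Pool.Agent.Helper84.FR Pool.Agent.Helper55.FR
open Pool.Agent.Helper78.BM Pool.Agent.Helper45.DC Pool.Agent.Helper55.OB
open Pool.Agent.Helper96.SA Pool.Agent.Helper96.FR Pool.Agent.Helper96.TO
open Pool.Agent.Helper43.TZ (rootSp)
open Pool.Agent.Helper35.OB (am_main far_of Far)
open Pool.Agent.Helper84.OB (NonInc)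

section Seq

variable {L : Type} [LieRing L] [LieAlgebra ℝ L] {M : ℕ} {θ : L ≃ₗ⁅ℝ⁆ L} {b : Module.Basis (Fin M) ℝ L}
  {G : Subgroup (GL (Fin M) ℝ)} {A : Submodule ℝ L}

/-- The sequence `exp(k n • ad H)`. -/
noncomputable def sqG (hG : IsAdj b G) (H : L) (k : ℕ → ℝ) : ℕ → G := fun n =>
  ⟨ex (LinearMap.toMatrix b b (LieAlgebra.ad ℝ L (k n • H))), hG.exp_ad _⟩

theorem sqG_coe (hG : IsAdj b G) (H : L) (k : ℕ → ℝ) (n : ℕ) : (sqG hG H k n : GL (Fin M) ℝ) = ex (k n • TT_to b H) := by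
  change ex (TT_to b (k n • H)) = _
  rw [map_smul]

/-- `w` acts on `A` by `s`. -/
def Acts (b : Module.Basis (Fin M) ℝ L) (A : Submodule ℝ L) (w : G) (s : A → A) : Prop := ∀ H : A,
  ((w : GL (Fin M) ℝ) : Mat M) * TT_to b (H : L) * (((w : GL (Fin M) ℝ)⁻¹ : GL (Fin M) ℝ) : Mat M) = TT_to b ((s H : A) : L)

theorem Acts.mul {w w' : G} {s s' : A → A} (h : Acts b A w s) (h' : Acts b A w' s') : Acts b A (w * w') (s ∘ s') := by
  intro H
  rw [Subgroup.coe_mul, _root_.mul_inv_rev, Units.val_mul, Units.val_mul, Function.comp_apply, ← h, ← h']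
  simp only [Matrix.mul_assoc]

theorem Acts.inv {w : G} {s s' : A → A} (h : Acts b A w s) (hs : ∀ H, s (s' H) = H) : Acts b A w⁻¹ s' := by
  intro H
  have h1 := h (s' H)
  rw [hs] at h1
  rw [← h1, Subgroup.coe_inv, inv_inv]
  have e1 : (((w : GL (Fin M) ℝ)⁻¹ : GL (Fin M) ℝ) : Mat M) * ((w : GL (Fin M) ℝ) : Mat M) = 1 := Units.inv_mul _
  calc _ = ((((w : GL (Fin M) ℝ)⁻¹ : GL (Fin M) ℝ) : Mat M) * ((w : GL (Fin M) ℝ) : Mat M)) * TT_to b (s' H : L) *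
        ((((w : GL (Fin M) ℝ)⁻¹ : GL (Fin M) ℝ) : Mat M) * ((w : GL (Fin M) ℝ) : Mat M)) := by simp only [Matrix.mul_assoc]
    _ = _ := by rw [e1, Matrix.one_mul, Matrix.mul_one]

theorem sqG_conj (hG : IsAdj b G) {w : G} {s : A → A} (h : Acts b A w s) (H : A) (k : ℕ → ℝ) (n : ℕ) :
    w * sqG hG (H : L) k n * w⁻¹ = sqG hG ((s H : A) : L) k n := by
  refine Subtype.ext ?_
  rw [Subgroup.coe_mul, Subgroup.coe_mul, Subgroup.coe_inv, sqG_coe, sqG_coe, ← ex_conj, Matrix.mul_smul, Matrix.smul_mul, h]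

theorem cen_of (hG : IsAdj b G) {w : G} {H : L} {k : ℕ → ℝ} (h : ∀ n, w * sqG hG H k n * w⁻¹ = sqG hG H k n) :
    w ∈ cen (sqG hG H k) := by
  rw [mem_cen]
  intro n
  have h1 := h n
  rw [mul_inv_eq_iff_eq_mul] at h1
  exact h1.symm

theorem cen_conj {G1 : Type} [Group G1] {b : ℕ → G1} {q : G1} (hq : q ∈ cen b) (w : G1) :
    w * q * w⁻¹ ∈ cen fun n => w * b n * w⁻¹ := by
  rw [mem_cen] at hq ⊢
  intro n
  have h1 := hq n
  calc w * b n * w⁻¹ * (w * q * w⁻¹) = w * (b n * q) * w⁻¹ := by group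
    _ = w * (q * b n) * w⁻¹ := by rw [h1]
    _ = w * q * w⁻¹ * (w * b n * w⁻¹) := by group

theorem ctr_sq (hG : IsAdj b G) {H : L} {k : ℕ → ℝ} (hk : Tendsto k atTop atTop) {X : Mat M} {c : ℝ} (hc : c < 0)
    (h : TT_to b H * X - X * TT_to b H = c • X) {g : G} (hg : (g : GL (Fin M) ℝ) = ex X) : g ∈ Ctr (sqG hG H k) := by
  have h1 : Tendsto (fun n => sqG hG H k n * g * (sqG hG H k n)⁻¹) atTop (𝓝 1) := by
    rw [tendsto_subtype_rng]
    have h2 : Tendsto (fun n => Real.exp (c * k n) • X) atTop (𝓝 ((0 : ℝ) • X)) :=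
      (Real.tendsto_exp_atBot.comp (hk.const_mul_atTop_of_neg hc)).smul_const X
    rw [zero_smul] at h2
    have h3 := (continuous_ex.tendsto (0 : Mat M)).comp h2
    rw [ex_zero] at h3
    refine h3.congr fun n => ?_
    rw [Function.comp_apply, Subgroup.coe_mul, Subgroup.coe_mul, Subgroup.coe_inv, sqG_coe, hg]
    exact (conj_root h (k n)).symm
  exact h1.mono_left Nat.hyperfilter_le_atTop

theorem cen_sq (hG : IsAdj b G) {H : L} {k : ℕ → ℝ} {X : Mat M}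
    (h : TT_to b H * X - X * TT_to b H = (0 : ℝ) • X) {g : G} (hg : (g : GL (Fin M) ℝ) = ex X) : g ∈ cen (sqG hG H k) := by
  rw [mem_cen]
  intro n
  refine Subtype.ext ?_
  rw [Subgroup.coe_mul, Subgroup.coe_mul, sqG_coe, hg]
  have h1 := conj_root h (k n)
  rw [zero_mul, Real.exp_zero, one_smul, mul_inv_eq_iff_eq_mul] at h1
  exact h1

/-- Generation by two parabolic subgroups. -/
theorem gen_rot [LieAlgebra.IsSimple ℝ L] (h : CartanBasis θ b) (hG : IsAdj b G)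
    (hc : (G : Set (GL (Fin M) ℝ)) ⊆ closure (Subgroup.closure (Set.range fun x : L => ex (LinearMap.toMatrix b b (LieAlgebra.ad ℝ L x))) : Set (GL (Fin M) ℝ)))
    (hA : MaxFlat θ A) {H0 : A} {k : ℕ → ℝ} (hk : Tendsto k atTop atTop) {r : G} {ρ : A → A} (hr : Acts b A r ρ)
    (hsum : H0 + ρ H0 + ρ (ρ H0) = 0) (Z : Subgroup G) (hZ : IsClosed (Z : Set G)) (hrZ : r ∈ Z)
    (hcen : cen (sqG hG (H0 : L) k) ≤ Z) (hctr : Ctr (sqG hG (H0 : L) k) ⊆ Z) : Z = ⊤ := by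
  have base : ∀ (X : Mat M) (c : ℝ), c ≤ 0 → TT_to b (H0 : L) * X - X * TT_to b (H0 : L) = c • X →
      ∀ g : G, (g : GL (Fin M) ℝ) = ex X → g ∈ Z := by
    intro X c hc0 hX g hg
    rcases hc0.lt_or_eq with h1 | h1
    · exact hctr (ctr_sq hG hk h1 hX hg)
    · rw [h1] at hX
      exact hcen (cen_sq hG hX hg)
  -- the translates
  have step : ∀ {H : A}, (∀ (X : Mat M) (c : ℝ), c ≤ 0 → TT_to b (H : L) * X - X * TT_to b (H : L) = c • X →
      ∀ g : G, (g : GL (Fin M) ℝ) = ex X → g ∈ Z) → ∀ (X : Mat M) (c : ℝ), c ≤ 0 →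
      TT_to b (ρ H : L) * X - X * TT_to b (ρ H : L) = c • X → ∀ g : G, (g : GL (Fin M) ℝ) = ex X → g ∈ Z := by
    intro H hH X c hc0 hX g hg
    have e1 : (((r : GL (Fin M) ℝ)⁻¹ : GL (Fin M) ℝ) : Mat M) * ((r : GL (Fin M) ℝ) : Mat M) = 1 := Units.inv_mul _
    have e2 : ((r : GL (Fin M) ℝ) : Mat M) * (((r : GL (Fin M) ℝ)⁻¹ : GL (Fin M) ℝ) : Mat M) = 1 := Units.mul_inv _
    obtain ⟨R, hR⟩ : ∃ R : Mat M, R = ((r : GL (Fin M) ℝ) : Mat M) := ⟨_, rfl⟩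
    obtain ⟨R', hR'⟩ : ∃ R' : Mat M, R' = (((r : GL (Fin M) ℝ)⁻¹ : GL (Fin M) ℝ) : Mat M) := ⟨_, rfl⟩
    rw [← hR, ← hR'] at e1 e2
    have h1 : TT_to b (ρ H : L) = R * TT_to b (H : L) * R' := by
      rw [hR, hR', hr H]
    have h2 : (r⁻¹ * g * r : G) ∈ Z := by
      refine hH (R' * X * R) c hc0 ?_ _ ?_
      · have h3 : R' * (TT_to b (ρ H : L) * X - X * TT_to b (ρ H : L)) * R = R' * (c • X) * R := by rw [hX]
        rw [h1] at h3
        have h4 : R' * (R * TT_to b (H : L) * R' * X - X * (R * TT_to b (H : L) * R')) * R =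
            (R' * R) * TT_to b (H : L) * (R' * X * R) - (R' * X * R) * TT_to b (H : L) * (R' * R) := by
          noncomm_ring
        rw [h4, e1, Matrix.one_mul, Matrix.mul_one, Matrix.mul_smul, Matrix.smul_mul] at h3
        exact h3
      · rw [Subgroup.coe_mul, Subgroup.coe_mul, Subgroup.coe_inv, hg]
        have h5 := ex_conj (r : GL (Fin M) ℝ)⁻¹ X
        rw [inv_inv] at h5
        rw [hR, hR', h5]
    have h3 := Z.mul_mem (Z.mul_mem hrZ h2) (Z.inv_mem hrZ)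
    have e : r * (r⁻¹ * g * r) * r⁻¹ = g := by group
    rwa [e] at h3
  refine gen_par h hG hc hA (H := ![H0, ρ H0, ρ (ρ H0)]) (by simpa using hsum) Z hZ fun i X _ c hc0 hX g hg => ?_
  fin_cases i
  · exact base X c hc0 hX g hg
  · exact step base X c hc0 hX g hg
  · exact step (step base) X c hc0 hX g hg

/-- The rotation `(s_β s_α)²`. -/
theorem rot_sum {α β : Module.Dual ℝ A} (sep : ∀ H : A, α H = 0 → β H = 0 → H = 0) {a c : A} {p q : ℝ} (hpq : p * q = 3)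
    (haa : α a = 2) (hcc : β c = 2) (hac : α c = -p) (hca : β a = -q) {s t : A → A} (hs : ∀ H, s H = H - α H • a)
    (ht : ∀ H, t H = H - β H • c) (H : A) :
    H + (t ∘ (s ∘ (t ∘ s))) H + (t ∘ (s ∘ (t ∘ s))) ((t ∘ (s ∘ (t ∘ s))) H) = 0 := by
  have hαs : ∀ H, α (s H) = -α H := fun H => by
    rw [hs, map_sub, map_smul, haa, smul_eq_mul]
    ring
  have hβs : ∀ H, β (s H) = β H + q * α H := fun H => by
    rw [hs, map_sub, map_smul, hca, smul_eq_mul]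
    ring
  have hαt : ∀ H, α (t H) = α H + p * β H := fun H => by
    rw [ht, map_sub, map_smul, hac, smul_eq_mul]
    ring
  have hβt : ∀ H, β (t H) = -β H := fun H => by
    rw [ht, map_sub, map_smul, hcc, smul_eq_mul]
    ring
  refine sep _ ?_ ?_
  · simp only [Function.comp_apply, map_add, hαt, hαs, hβs, hβt]
    linear_combination (α H * ((p * q) ^ 3 - 4 * (p * q) ^ 2 + 4 * (p * q) - 1) + p * β H * ((p * q) ^ 2 - 3 * (p * q) + 2)) * hpq
  · simp only [Function.comp_apply, map_add, hαt, hαs, hβs, hβt]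
    linear_combination (-(β H * (p * q - 1) ^ 2 + q * α H * ((p * q) ^ 2 - 3 * (p * q) + 2))) * hpq

end Seq

section Fin

variable {L : Type} [LieRing L] [LieAlgebra ℝ L] {M : ℕ} {θ : L ≃ₗ⁅ℝ⁆ L} {b : Module.Basis (Fin M) ℝ L}
  {G : Subgroup (GL (Fin M) ℝ)} {A : Submodule ℝ L}
  {X Q Λ : Type} [MeasurableSpace X] [MulAction G X] [MeasurableConstSMul G X] [Group Q] [Group Λ] [Countable Λ] {μ : Measure X}
  [SMulInvariantMeasure G X μ] [IsProbabilityMeasure μ] {a : Cocy G X Λ} {E : Emb Λ Q} {N : ℕ} {P : PH Q N} {S : Sv P}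

theorem ergU_mono {G1 X Q Λ : Type} [Group G1] [MeasurableSpace X] [MulAction G1 X] [MeasurableConstSMul G1 X] [Group Q] [Group Λ]
    [Countable Λ] {μ : Measure X} [SMulInvariantMeasure G1 X μ] [IsProbabilityMeasure μ] {a : Cocy G1 X Λ} {E : Emb Λ Q}
    {U V : Set G1} (hUV : U ⊆ V) (h : ErgU μ a E U) : ErgU μ a E V :=
  fun Y hD hW hV => h Y hD hW fun u hu => hV u (hUV hu)

/-- **Type `G₂` is excluded.** -/
theorem g2_core [LieAlgebra.IsSimple ℝ L] (h : CartanBasis θ b) (hG : IsAdj b G)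
    (hc : (G : Set (GL (Fin M) ℝ)) ⊆ closure (Subgroup.closure (Set.range fun x : L => ex (LinearMap.toMatrix b b (LieAlgebra.ad ℝ L x))) : Set (GL (Fin M) ℝ)))
    (hA : MaxFlat θ A) {τ : Module.Dual ℝ A ≃ₗ[ℝ] A}
    (hτ : ∀ (φ : Module.Dual ℝ A) (a : A), killingForm ℝ L (τ φ : L) (a : L) = φ a) {α β : Module.Dual ℝ A}
    (hα : α ∈ rootsL A) (hβ : β ∈ rootsL A) (sep : ∀ H : A, α H = 0 → β H = 0 → H = 0) {p q : ℝ} (hp : 0 < p) (hpq : p * q = 3)
    (haa : α (cor τ α) = 2) (hbb : β (cor τ β) = 2) (hab : α (cor τ β) = -p) (hba : β (cor τ α) = -q)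
    (hγ : α + p • β ∈ rootsL A) {Hv Hu : A} (hv1 : 0 < α Hv) (hv2 : β Hv = 0) (hu1 : α Hu = 0) (hu2 : 0 < β Hu)
    (hS : SO2 P S) (h3 : Tendsto (fun g : G => μ {x | a.a g x ≠ 1}) (𝓝 1) (𝓝 0))
    (hF2 : Tendsto (fun g : G => μ {x | a.a g x = 1}) (cocompact G) (𝓝 0)) (hK : Kcont G μ) (hinv : InvT μ a E)
    {k k' : ℕ → ℝ} (hk : Tendsto k atTop atTop) (hk' : Tendsto k' atTop atTop)
    (B0 : BMap μ a E (R1 S) (pd1 S) (sqG hG (Hv : L) k))
    (hn0 : comG μ a E (R1 S) (pd1 S) (sqG hG (Hv : L) k) ≠ ⊤) (hn1 : comG μ a E (R2 S) (pd2 S) (sqG hG (Hu : L) k') ≠ ⊤)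
    (hfar : ∀ x : L, x ≠ 0 → ∀ (H : A) (c : ℝ), c ≠ 0 → ⁅(H : L), x⁆ = c • x → ∀ D : Set G,
      (∀ (t : ℝ) (g : G), (g : GL (Fin M) ℝ) = ex (t • TT_to b x) → g ∈ D) → ¬ ∃ K : Set G, IsCompact K ∧ D ⊆ K) : False := by
  -- the reflections
  obtain ⟨wa, hwa⟩ := exists_refl h hG hA hτ hα
  obtain ⟨wb, hwb⟩ := exists_refl h hG hA hτ hβ
  obtain ⟨s, hs⟩ : ∃ s : A → A, s = fun H => H - α H • cor τ α := ⟨_, rfl⟩
  obtain ⟨t, ht⟩ : ∃ t : A → A, t = fun H => H - β H • cor τ β := ⟨_, rfl⟩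
  have hs' : ∀ H, s H = H - α H • cor τ α := fun H => by rw [hs]
  have ht' : ∀ H, t H = H - β H • cor τ β := fun H => by rw [ht]
  have hwa' : Acts b A wa s := fun H => by rw [hs']; exact hwa H
  have hwb' : Acts b A wb t := fun H => by rw [ht']; exact hwb H
  have hss : ∀ H, s (s H) = H := by
    intro H
    rw [hs' (s H), hs' H, map_sub, map_smul, haa, smul_eq_mul]
    module
  have htt : ∀ H, t (t H) = H := by
    intro H
    rw [ht' (t H), ht' H, map_sub, map_smul, hbb, smul_eq_mul]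
    module
  have hwai : Acts b A wa⁻¹ s := hwa'.inv hss
  have hwbi : Acts b A wb⁻¹ t := hwb'.inv htt
  have hαs : ∀ H, α (s H) = -α H := fun H => by
    rw [hs', map_sub, map_smul, haa, smul_eq_mul]
    ring
  have hβs : ∀ H, β (s H) = β H + q * α H := fun H => by
    rw [hs', map_sub, map_smul, hba, smul_eq_mul]
    ring
  have hαt : ∀ H, α (t H) = α H + p * β H := fun H => by
    rw [ht', map_sub, map_smul, hab, smul_eq_mul]
    ring
  have hβt : ∀ H, β (t H) = -β H := fun H => by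
    rw [ht', map_sub, map_smul, hbb, smul_eq_mul]
    ring
  have hsHu : s Hu = Hu := by rw [hs', hu1, zero_smul, sub_zero]
  have htHv : t Hv = Hv := by rw [ht', hv2, zero_smul, sub_zero]
  -- the four sequences
  obtain ⟨H2, hH2⟩ : ∃ H2 : A, H2 = s Hv := ⟨_, rfl⟩
  obtain ⟨H3, hH3⟩ : ∃ H3 : A, H3 = s (t Hu) := ⟨_, rfl⟩
  have e2 : (fun n => wa * sqG hG (Hv : L) k n * wa⁻¹) = sqG hG (H2 : L) k := by
    funext n
    rw [hH2]
    exact sqG_conj hG hwa' Hv k n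
  have e3 : (fun n => wa * wb * sqG hG (Hu : L) k' n * (wa * wb)⁻¹) = sqG hG (H3 : L) k' := by
    funext n
    rw [hH3]
    exact sqG_conj hG (hwa'.mul hwb') Hu k' n
  obtain ⟨B2⟩ := bmap_conj plf1 B0 wa
  rw [e2] at B2
  -- the common root
  obtain ⟨γ, hγd⟩ : ∃ γ, γ = α + p • β := ⟨_, rfl⟩
  rw [← hγd] at hγ
  have g0 : 0 < γ Hv := by
    rw [hγd, LinearMap.add_apply, LinearMap.smul_apply, hv2, smul_zero, add_zero]
    exact hv1
  have g1 : 0 < γ Hu := by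
    rw [hγd, LinearMap.add_apply, LinearMap.smul_apply, hu1, zero_add, smul_eq_mul]
    positivity
  have g2 : 0 < γ H2 := by
    rw [hγd, hH2, LinearMap.add_apply, LinearMap.smul_apply, hαs, hβs, hv2, smul_eq_mul]
    have : -α Hv + p * (0 + q * α Hv) = (p * q - 1) * α Hv := by ring
    rw [this, hpq]
    linarith
  have g3 : 0 < γ H3 := by
    rw [hγd, hH3, LinearMap.add_apply, LinearMap.smul_apply, hαs, hβs, hαt, hβt, hu1, smul_eq_mul]
    have : -(0 + p * β Hu) + p * (-β Hu + q * (0 + p * β Hu)) = (p * q - 2) * (p * β Hu) := by ring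
    rw [this, hpq]
    have := mul_pos hp hu2
    linarith
  obtain ⟨hγ0, y, hy0, hy⟩ := hγ
  -- a root vector for `-γ`
  have hmy : ∀ H : A, ⁅(H : L), θ y⁆ = (-γ H) • θ y := by
    intro H
    have h1 := congrArg θ (hy H)
    rw [LieEquiv.map_lie, hA.neg _ H.2, map_smul, neg_lie] at h1
    rw [neg_smul, ← h1, neg_neg]
  obtain ⟨x, hx⟩ : ∃ x, x = θ y := ⟨_, rfl⟩
  rw [← hx] at hmy
  have hx0 : x ≠ 0 := by
    intro h0
    apply hy0
    rw [← h.invol y, ← hx, h0, map_zero]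
  have hXr : ∀ H : A, TT_to b (H : L) * TT_to b x - TT_to b x * TT_to b (H : L) = (-γ H) • TT_to b x := by
    intro H
    rw [← TT_lie_to, hmy, map_smul]
  obtain ⟨U, hU⟩ : ∃ U : Set G, U = {g : G | ∃ t : ℝ, (g : GL (Fin M) ℝ) = ex (t • TT_to b x)} := ⟨_, rfl⟩
  have hUc : ∀ (H : A) (m : ℕ → ℝ), 0 < γ H → Tendsto m atTop atTop → U ⊆ Ctr (sqG hG (H : L) m) := by
    intro H m hH hm g hg
    rw [hU] at hg
    obtain ⟨r, hr⟩ := hg
    refine ctr_sq hG hm (c := -γ H) (by linarith) (X := r • TT_to b x) ?_ hr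
    rw [Matrix.mul_smul, Matrix.smul_mul, ← smul_sub, hXr, smul_comm]
  have hunb : ∀ D : Set G, U ⊆ D → Far μ a D := by
    intro D hD
    refine far_of hF2 (hfar x hx0 Hv (-γ Hv) (by linarith : -γ Hv < 0).ne (hmy Hv) D fun t g hg => hD ?_)
    rw [hU]
    exact ⟨t, hg⟩
  have hErg : ErgU μ a E U := by
    refine ergU_of hinv fun φ hφ g => ?_
    refine maut_root h hG hc hA (φ := -γ) (neg_ne_zero.2 hγ0) hx0 (fun H => hmy H) (vgR μ a (adR E)) φ (contVec_vg h3 hK (adR E) φ)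
      (fun r g hg => ?_) g
    exact hφ g (by rw [hU]; exact ⟨r, hg⟩)
  have hUi : ∀ g ∈ U, g⁻¹ ∈ U := by
    intro g hg
    rw [hU] at hg ⊢
    obtain ⟨r, hr⟩ := hg
    refine ⟨-r, ?_⟩
    rw [Subgroup.coe_inv, hr, neg_smul, ex_neg]
  have am : ∀ (H H' : A) (m m' : ℕ → ℝ), 0 < γ H → 0 < γ H' → Tendsto m atTop atTop → Tendsto m' atTop atTop →
      Inc μ (px S) (pl S) ((Tb μ a E (R2 S) (sqG hG (H' : L) m')).comp
        (ContinuousLinearMap.adjoint (Tb μ a E (R1 S) (sqG hG (H : L) m)))) := by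
    intro H H' m m' hH hH' hm hm'
    refine inc_of_am hS fun A' B' hAB z => ?_
    exact am_main hS h3 (hunb _ (Set.subset_inter (hUc H m hH hm) (hUc H' m' hH' hm'))) A' B' hAB z
  -- generation
  have hr1 : Acts b A (wb * (wa * wb * wa⁻¹)) (t ∘ (s ∘ (t ∘ s))) := by
    have h1 := hwb'.mul ((hwa'.mul hwb').mul hwai)
    exact h1
  have hr2 : Acts b A (wa * (wa * wb * wa * (wa * wb)⁻¹)) (t ∘ (s ∘ (t ∘ s))) := by
    have h1 := hwa'.mul (((hwa'.mul hwb').mul hwa').mul (hwbi.mul hwai))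
    rw [_root_.mul_inv_rev]
    intro H
    rw [h1 H]
    simp only [Function.comp_apply, hss]
  have hsum : ∀ H : A, H + (t ∘ (s ∘ (t ∘ s))) H + (t ∘ (s ∘ (t ∘ s))) ((t ∘ (s ∘ (t ∘ s))) H) = 0 := fun H =>
    rot_sum sep hpq haa hbb hab hba hs' ht' H
  have hgv : ∀ Z : Subgroup G, IsClosed (Z : Set G) → cen (sqG hG (Hv : L) k) ≤ Z → cen (sqG hG (H2 : L) k) ≤ Z →
      Ctr (sqG hG (Hv : L) k) ⊆ Z → Ctr (sqG hG (H2 : L) k) ⊆ Z → Z = ⊤ := by
    intro Z hZ hZ1 hZ2 hZ3 _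
    have hw : wb ∈ cen (sqG hG (Hv : L) k) := by
      refine cen_of hG fun n => ?_
      rw [sqG_conj hG hwb' Hv k n, htHv]
    refine gen_rot h hG hc hA hk hr1 (hsum Hv) Z hZ ?_ hZ1 hZ3
    refine Z.mul_mem (hZ1 hw) (hZ2 ?_)
    rw [← e2]
    exact cen_conj hw wa
  have hgu : ∀ Z : Subgroup G, IsClosed (Z : Set G) → cen (sqG hG (Hu : L) k') ≤ Z → cen (sqG hG (H3 : L) k') ≤ Z →
      Ctr (sqG hG (Hu : L) k') ⊆ Z → Ctr (sqG hG (H3 : L) k') ⊆ Z → Z = ⊤ := by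
    intro Z hZ hZ1 hZ2 hZ3 _
    have hw : wa ∈ cen (sqG hG (Hu : L) k') := by
      refine cen_of hG fun n => ?_
      rw [sqG_conj hG hwa' Hu k' n, hsHu]
    refine gen_rot h hG hc hA hk' hr2 (hsum Hu) Z hZ ?_ hZ1 hZ3
    refine Z.mul_mem (hZ1 hw) (hZ2 ?_)
    rw [← e3]
    exact cen_conj hw (wa * wb)
  have hE1 : ErgU μ a E (Ctr (sqG hG (Hu : L) k')) := ergU_mono (hUc Hu k' g1 hk') hErg
  have hE3 : ErgU μ a E (Ctr (sqG hG (H3 : L) k')) := ergU_mono (hUc H3 k' g3 hk') hErg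
  have hm : ‖XPpr (R2 S) (vec μ a E (sqG hG (Hu : L) k'))‖ = ‖XPpr (R2 S) (vec μ a E (sqG hG (H3 : L) k'))‖ := by
    rw [← e3]
    exact (norm_conj hE1 h3 (wa * wb)).symm
  exact g2_abs (pm_px hS) (pm_pl hS) (min3_pl hS) psh1 plf1 plf2 h3 hK hE1 hE3 hm B0 B2 (am Hv Hu k k' g0 g1 hk hk')
    (am H2 Hu k k' g2 g1 hk hk') (am Hv H3 k k' g0 g3 hk hk') (am H2 H3 k k' g2 g3 hk hk') hgv hgu hn0 hn1 hErg hUi
    (fun q hq => hUc Hv k g0 hk hq) (fun q hq => hUc H2 k g2 hk hq)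

end Fin

end Pool.Agent.Helper90.OB
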